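import Pool.Agent.SOT.Defs

/-! Project SOT, module Defs2 (size 0): the family of the strong E-P-cuts, computed from the base order.
-/

set_option autoImplicit false

open Set

namespace Pool.Agent.SOT

open Pool.Agent.SOC Pool.Agent.SOD Pool.Agent.SOS Pool.Agent.SOP Pool.Agent.SOE

/-- `X` splits both pairs -/
def splB (X : Ord) (a b c d : ℕ) : Bool := xor (decide (a ∈ X)) (decide (b ∈ X)) && xor (decide (c ∈ X)) (decide (d ∈ X))

/-- test for E-P-cuts -/
def epcB (M : Mat) (X : Ord) : Bool :=
  (List.range M.length).all fun a => (List.range M.length).all fun b => (List.range M.length).all fun c =>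
    (List.range M.length).all fun d => !((rigidB M a b c d || w4B M a b c d) && splB X a b c d)

/-- the nontrivial intervals of the base order (without its first element) which are E-P-cuts -/
def epcL (M : Mat) (s0 : Ord) : List Ivl :=
  (List.range (s0.length + 1)).flatMap fun i => ((List.range (s0.length + 1)).map fun j => (i, j)).filter fun I =>
    decide (1 ≤ I.1) && decide (I.1 + 2 ≤ I.2) && decide (I.2 + 2 ≤ s0.length + I.1) && epcB M (seg s0 I)

/-- the strong ones -/
def strL (M : Mat) (s0 : Ord) : List Ivl := (epcL M s0).filter fun I => (epcL M s0).all fun J => !(ovl I J)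

/-- the part of `v` at the node `I` -/
def prt (M : Mat) (s0 : Ord) (F : List Ivl) (I : Ivl) (v : Fin M.length) : Set (Fin M.length) :=
  {u | ∀ K ∈ kids s0.length F I, (u.val ∈ seg s0 K ↔ v.val ∈ seg s0 K)}

/-- the hypothesis on the rigid step: the children are in the order of the base order -/
def RigS (rig : Mat → Ord → List Ivl → List (List Ord) → List Ord) (M : Mat) (s0 : Ord) (F : List Ivl) : Prop :=
  ∀ I, Nod s0.length F I → 6 ≤ (kids s0.length F I).length → ∀ C : Ivl → List Ord,
    (∀ K ∈ kids s0.length F I, ∀ L ∈ C K, L.Perm (seg s0 K) ∧ L.reverse ∈ C K) →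
    ∀ Ls : List Ord, List.Forall₂ (fun L K => L ∈ C K) Ls (kids s0.length F I) →
      ∀ R, VO M (Ls.flatten ++ R) → ∃ L ∈ rig M s0 (kids s0.length F I) ((kids s0.length F I).map C), VO M (L ++ R)

/-- the hypothesis on the keys -/
def RepS (good : Mat → Ord → Key → Bool) (keys : Mat → List Key) (M : Mat) : Prop :=
  ∀ L R : Ord, StrE (graphOf M) (setW M L) → VO M (L ++ R) →
    ∃ k ∈ keys M, good M L k = true ∧ ∀ L' : Ord, L'.Perm L → good M L' k = true → VO M (L' ++ R)

/-- the parameters, with the reversed results of the rigid step -/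
def parE (rig : Mat → Ord → List Ivl → List (List Ord) → List Ord) (good : Mat → Ord → Key → Bool) (keys : Mat → List Key) : Par :=
  ⟨fun M s0 Ks Cs => clo (rig M s0 Ks Cs), good, keys⟩

end Pool.Agent.SOT
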