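import Pool.Agent.SOT.StrT

/-! Project SOT, module IntT (size 2): strong E-P-cuts are intervals of all SOC orders.
-/

set_option autoImplicit false

open Set

namespace Pool.Agent.SOT

open Pool.Agent.SOC Pool.Agent.SOD Pool.Agent.SOS Pool.Agent.SOP Pool.Agent.SOE

variable {M : Mat} {s : List (Fin M.length)}

/-- PROOF. l = s₁.map val, s₁ a SOC order, EWO by ewo_of_qt; str_mem, stre_ci for s₁, ci_cyc (seg is a sublist of s.map val). -/
theorem int_vo (hG : PrimeG (graphOf M)) (hc : CFree (graphOf M)) (hs : EWO (graphOf M) s) {l : Ord} (hl : VO M l) {I : Ivl}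
    (hI : I ∈ strL M (s.map Fin.val)) : Cyc l (seg (s.map Fin.val) I) := by
  obtain ⟨s₁, rfl, hs₁, T, hT⟩ := hl
  have h1 : EWO (graphOf M) s₁ := ewo_of_qt hs₁ hT
  have h2 := stre_ci hG hc h1 (str_mem hG hc hs hI)
  have hsub : (seg (s.map Fin.val) I).Sublist (s.map Fin.val) :=
    (List.take_sublist _ _).trans (List.drop_sublist _ _)
  refine ci_cyc hs₁ ?_ ?_ h2
  · exact hsub.nodup (hs.enum.1.map Fin.val_injective)
  · intro x hx
    obtain ⟨v, _, rfl⟩ := List.mem_map.1 (hsub.subset hx)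
    exact v.2

end Pool.Agent.SOT
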