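import Pool.Agent.SOT.StepT

/-! Project SOT, module MainT (size 3): correctness of the dynamic program.
-/

set_option autoImplicit false

namespace Pool.Agent.SOT

open Pool.Agent.SOC Pool.Agent.SOD Pool.Agent.SOS

variable {P : Par} {M : Mat} {s0 : Ord} {F : List Ivl}

/-- PROOF. k = 0: look of [] is empty. k + 1: tabs (k + 1) = rnd .. (tabs k) (Function.iterate_succ_apply'); look_rnd, red_perm. -/
theorem tabs_ok (h : Hyp P M s0 F) (k : ℕ) : OkT s0 F (tabs P M s0 F k) := by
  have hnd : s0.Nodup := h.base.nodup_iff.mpr List.nodup_range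
  cases k with
  | zero =>
    intro I hI L hL
    have hlen := h.fam.len I hI
    have hne : ¬ (I.2 = I.1 + 1) := by omega
    simp [tabs, look, hne] at hL
  | succ k =>
    intro I hI L hL
    have e : tabs P M s0 F (k + 1) = rnd P M s0 F (tabs P M s0 F k) := by
      simp only [tabs, Function.iterate_succ_apply']
    rw [e] at hL ⊢
    rw [look_rnd h.fam hI] at hL ⊢
    exact red_perm hnd hL

/-- PROOF. Induction on k. k = 0: I.2 - I.1 ≥ 2, nothing to prove. k + 1: look_rnd: it is enough that node P M s0 F (tabs k) I is complete: red_cmp with cands_cmp; the kids K ∈ F of I are smaller (kids_lt), so K.2 - K.1 ≤ k. -/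
theorem tabs_cmp (h : Hyp P M s0 F) (k : ℕ) : ∀ I ∈ F, I.2 - I.1 ≤ k → Cmp M (look s0 (tabs P M s0 F k) I) (seg s0 I) := by
  induction k with
  | zero =>
    intro I hI hle
    have hlen := h.fam.len I hI
    omega
  | succ k ih =>
    intro I hI hle
    have e : tabs P M s0 F (k + 1) = rnd P M s0 F (tabs P M s0 F k) := by
      simp only [tabs, Function.iterate_succ_apply']
    rw [e]
    have hc : Cmp M (node P M s0 F (tabs P M s0 F k) I) (seg s0 I) := by
      refine red_cmp h hI ?_
      refine cands_cmp h (tabs_ok h k) (Or.inl hI) ?_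
      intro K hK hKF
      have := kids_lt h.fam (h.fam.len I hI) (h.fam.hi I hI) hK
      exact ih K hKF (by omega)
    intro L R hL hV
    obtain ⟨L', hL', hV'⟩ := hc L R hL hV
    exact ⟨L', (look_rnd h.fam hI).mpr hL', hV'⟩

/-- PROOF. (→) The list found is a permutation of s0 (permB_iff), so of range M.length, and tok is true: VO. (←) Let VO M l, v₀ := the first element of s0 (s0.take 1 = [v₀], s0 = v₀ :: s1, seg s0 (1, s0.length) = s1). v₀ ∈ l (vo_perm), l = A ++ v₀ :: B, vo_rot: VO M ((B ++ A) ++ [v₀]) (two rotations).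
B ++ A is a permutation of s1 (List.perm_cons etc.). cands_cmp for I = (1, s0.length): all members of F have I.2 - I.1 ≤ s0.length (tabs_cmp). L' ∈ cands with VO M (L' ++ [v₀]), vo_rot: VO M ([v₀] ++ L'), which is a permutation of range M.length, so of s0; htok. -/
theorem solve_iff (h : Hyp P M s0 F) {tok : Mat → Ord → Bool} (htok : ∀ l : Ord, l.Perm (List.range M.length) → (tok M l = true ↔ VO M l)) :
    solve P tok M s0 F = true ↔ ∃ l, VO M l := by
  have hnd : s0.Nodup := h.base.nodup_iff.mpr List.nodup_range
  constructor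
  · intro hs
    simp only [solve, List.any_eq_true, Bool.and_eq_true] at hs
    obtain ⟨L, -, hp, ht⟩ := hs
    have hp' : (s0.take 1 ++ L).Perm s0 := (permB_iff hnd).mp hp
    exact ⟨_, (htok _ (hp'.trans h.base)).mp ht⟩
  · rintro ⟨l, hl⟩
    have hlp := vo_perm hl
    have hlen : s0.length = M.length := by
      have := h.base.length_eq
      simpa using this
    have h4 := h.four
    obtain ⟨v0, s1, rfl⟩ : ∃ v s, s0 = v :: s := by
      cases s0 with
      | nil => simp at hlen; omega
      | cons v s => exact ⟨v, s, rfl⟩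
    have hseg : seg (v0 :: s1) (1, (v0 :: s1).length) = s1 := by
      simp [seg]
    have hv : v0 ∈ l := hlp.mem_iff.mpr (h.base.mem_iff.mp (List.mem_cons_self ..))
    obtain ⟨A, B, rfl⟩ := List.append_of_mem hv
    have hV1 : VO M ((v0 :: B) ++ A) := vo_rot hl
    have hV2 : VO M ([v0] ++ (B ++ A)) := by simpa using hV1
    have hV3 : VO M ((B ++ A) ++ [v0]) := vo_rot hV2
    have hperm : (B ++ A).Perm s1 := by
      have h1 : ([v0] ++ (B ++ A)).Perm (v0 :: s1) := (vo_perm hV2).trans h.base.symm
      exact (List.perm_cons v0).mp (by simpa using h1)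
    have hcmp := cands_cmp h (tabs_ok h (v0 :: s1).length) (I := (1, (v0 :: s1).length)) (Or.inr rfl) (by
      intro K hK hKF
      have h1 := h.fam.hi K hKF
      exact tabs_cmp h (v0 :: s1).length K hKF (by omega))
    rw [hseg] at hcmp
    obtain ⟨L', hL', hV'⟩ := hcmp (B ++ A) [v0] hperm hV3
    have hV4 : VO M ([v0] ++ L') := vo_rot hV'
    have hp4 := vo_perm hV4
    simp only [solve, List.any_eq_true, Bool.and_eq_true]
    refine ⟨L', hL', ?_, ?_⟩
    · have : List.take 1 (v0 :: s1) = [v0] := rfl
      rw [this]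
      exact (permB_iff hnd).mpr (hp4.trans h.base.symm)
    · have : List.take 1 (v0 :: s1) = [v0] := rfl
      rw [this]
      exact (htok _ hp4).mpr hV4

/-- PROOF. cases on base M; solve_iff, vo_sor. -/
theorem primeD_iff {tok : Mat → Ord → Bool} {base : Mat → Option Ord} {fam : Mat → Ord → List Ivl}
    (h0 : base M = none → ¬ SOR (graphOf M)) (h : ∀ s, base M = some s → Hyp P M s (fam M s))
    (htok : ∀ l : Ord, l.Perm (List.range M.length) → (tok M l = true ↔ VO M l)) :
    primeD P tok base fam M = true ↔ SOR (graphOf M) := by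
  unfold primeD
  cases hb : base M with
  | none => simpa using h0 hb
  | some s =>
    simp only
    rw [solve_iff (h s hb) htok, vo_sor]

end Pool.Agent.SOT
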