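import Pool.Agent.SOT.Rot7
import Pool.Agent.SOT.IntT
import Pool.Agent.SOT.MainT

/-! Project SOT, module HypE (size 2): the hypotheses of the dynamic program, for prime graphs without centre.
-/

set_option autoImplicit false

open Set

namespace Pool.Agent.SOT

open Pool.Agent.SOC Pool.Agent.SOD Pool.Agent.SOS Pool.Agent.SOP Pool.Agent.SOE

variable {M : Mat} {s : List (Fin M.length)} {rig : Mat → Ord → List Ivl → List (List Ord) → List Ord} {good : Mat → Ord → Key → Bool}
  {keys : Mat → List Key}

theorem hype_f2 {α β : Type} {R S : α → β → Prop} {l1 : List α} {l2 : List β} (h : List.Forall₂ R l1 l2)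
    (hi : ∀ a, ∀ b ∈ l2, R a b → S a b) : List.Forall₂ S l1 l2 := by
  induction h with
  | nil => exact List.Forall₂.nil
  | cons h1 _ ih =>
    exact List.Forall₂.cons (hi _ _ List.mem_cons_self h1) (ih (fun a b hb => hi a b (List.mem_cons_of_mem _ hb)))

theorem hype_f2m {α β : Type} {R S : α → β → Prop} {f : α → α} {l1 : List α} {l2 : List β} (h : List.Forall₂ R l1 l2)
    (hi : ∀ a, ∀ b ∈ l2, R a b → S (f a) b) : List.Forall₂ S (l1.map f) l2 := by
  induction h with
  | nil => exact List.Forall₂.nil
  | cons h1 _ ih =>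
    exact List.Forall₂.cons (hi _ _ List.mem_cons_self h1) (ih (fun a b hb => hi a b (List.mem_cons_of_mem _ hb)))

theorem hype_base {n : ℕ} {s : List (Fin n)} (hs : IsEnum s) : (s.map Fin.val).Perm (List.range n) := by
  rw [List.perm_ext_iff_of_nodup (hs.1.map Fin.val_injective) List.nodup_range]
  intro a
  rw [List.mem_map, List.mem_range]
  constructor
  · rintro ⟨x, _, rfl⟩
    exact x.2
  · intro ha
    exact ⟨⟨a, ha⟩, hs.2 _, rfl⟩

/-- PROOF. base: s is an enumeration. fam: strL_lam. int: int_vo. rep: RepS with str_mem and L.Perm (seg ..) (setW M L = setW M (seg ..)). rig: rot7 (the entries of C K are permutations of seg s0 K). Ks = kids: RigS, the result is in clo. Ks = kids.reverse: VO M (Ls.flatten ++ R): vo_rev: VO M (R.reverse ++ Ls.flatten.reverse), vo_rot: VO M (Ls.flatten.reverse ++ R.reverse);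
Ls.flatten.reverse = ((Ls.map reverse).reverse).flatten (List.reverse_flatten), and Forall₂ (L ∈ C K) ((Ls.map reverse).reverse) kids (List.forall₂_reverse_iff or rel_reverse, closure under reversal). RigS: L with VO M (L ++ R.reverse), vo_rev, vo_rot: VO M (L.reverse ++ R), and L.reverse is in clo. -/
theorem hypE (hG : PrimeG (graphOf M)) (hc : CFree (graphOf M)) (hs : EWO (graphOf M) s) (h4 : 4 ≤ M.length)
    (hr : RigS rig M (s.map Fin.val) (strL M (s.map Fin.val))) (hk : RepS good keys M) :
    Hyp (parE rig good keys) M (s.map Fin.val) (strL M (s.map Fin.val)) where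
  base := hype_base hs.enum
  four := h4
  fam := strL_lam _
  int := fun l hl I hI => int_vo hG hc hs hl hI
  rep := by
    intro I hI L R hL hV
    refine hk L R ?_ hV
    have h1 := str_mem hG hc hs hI
    have h2 : setW M L = setW M (seg (s.map Fin.val) I) := by
      ext x
      exact hL.mem_iff
    rw [h2]
    exact h1
  rig := by
    intro I hI h6 C hC Ks hKs Ls hLs R hV
    have e : (s.map Fin.val).length = s.length := List.length_map _
    have h1 : List.Forall₂ (fun L K => L.Perm (seg (s.map Fin.val) K)) Ls Ks :=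
      hype_f2 hLs (fun a b hb hab => (hC b (hKs.mem_iff.1 hb) a hab).1)
    have h2 := rot7 hG hc hs h4 (I := I) (by rw [← e]; exact hI) (by rw [← e]; exact h6) (Ks := Ks)
      (by rw [← e]; exact hKs) h1 hV
    rw [← e] at h2
    rcases h2 with h2 | h2
    · rw [h2] at hLs
      obtain ⟨L, h3, h4⟩ := hr I hI h6 C hC Ls hLs R hV
      exact ⟨L, List.mem_append_left _ h3, h4⟩
    · rw [h2] at hLs
      have h3 : VO M (Ls.flatten.reverse ++ R.reverse) := by
        refine vo_rot ?_
        rw [← List.reverse_append]
        exact vo_rev hV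
      rw [List.reverse_flatten] at h3
      have h4 : List.Forall₂ (fun L K => L ∈ C K) (Ls.map List.reverse)
          (kids (s.map Fin.val).length (strL M (s.map Fin.val)) I).reverse :=
        hype_f2m hLs (fun a b hb hab => (hC b (List.mem_reverse.1 hb) a hab).2)
      have h5 : List.Forall₂ (fun L K => L ∈ C K) (Ls.map List.reverse).reverse
          (kids (s.map Fin.val).length (strL M (s.map Fin.val)) I) := by
        have h6 := List.forall₂_reverse_iff.2 h4
        rwa [List.reverse_reverse] at h6
      obtain ⟨L, h6, h7⟩ := hr I hI h6 C hC _ h5 R.reverse h3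
      refine ⟨L.reverse, List.mem_append_right _ (List.mem_map.2 ⟨L, h6, rfl⟩), ?_⟩
      refine vo_rot ?_
      have h8 := vo_rev h7
      rwa [List.reverse_append, List.reverse_reverse] at h8

/-- **recognition of prime graphs without centre**. PROOF: primeD_iff; eOrder_none with ewo_of_qt and sor_iff_list; eOrder_some, hypE. -/
theorem primeE_iff (hG : PrimeG (graphOf M)) (hc : CFree (graphOf M)) (h4 : 4 ≤ M.length)
    (hr : ∀ s : List (Fin M.length), EWO (graphOf M) s → RigS rig M (s.map Fin.val) (strL M (s.map Fin.val))) (hk : RepS good keys M)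
    {tok : Mat → Ord → Bool} (htok : ∀ l : Ord, l.Perm (List.range M.length) → (tok M l = true ↔ VO M l)) :
    primeD (parE rig good keys) tok eOrder strL M = true ↔ SOR (graphOf M) := by
  refine primeD_iff ?_ ?_ htok
  · intro h hsor
    obtain ⟨s, hs, T, hT⟩ := sor_iff_list.1 hsor
    exact eOrder_none h s (ewo_of_qt hs hT)
  · intro l h
    obtain ⟨s, rfl, hs⟩ := eOrder_some hG hc h
    exact hypE hG hc hs h4 (hr s hs) hk

end Pool.Agent.SOT
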