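import Pool.Agent.SOT.PolA

/-! Project SOT, module PolB (size 3): polynomial time, part B: the iteration.
-/

set_option autoImplicit false

namespace Pool.Agent.SOT

open Pool.Agent.SOC Pool.Agent.SOD Pool.Agent.SOS

open FP

variable {P : Par} {M : Mat} {s0 : Ord} {F : List Ivl} {acc : Tab} {I : Ivl}

/-- PROOF: red has at most one member for every key, clo doubles the length. -/
theorem node_len : (node P M s0 F acc I).length ≤ 2 * (P.keys M).length := by
  have h1 : ∀ (C : List Ord) (L : List Key), (L.flatMap fun k => (C.filter fun l => P.good M l k).take 1).length ≤ L.length := by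
    intro C L
    induction L with
    | nil => simp
    | cons k L ih =>
      rw [List.flatMap_cons, List.length_append, List.length_cons]
      have h2 : ((C.filter fun l => P.good M l k).take 1).length ≤ 1 := List.length_take_le _ _
      omega
  unfold node clo red
  rw [List.length_append, List.length_map]
  have := h1 ((cands P M s0 F acc I).filter fun L => permB L (seg s0 I)) (P.keys M)
  omega

/-- PROOF: permB: the length is the length of seg s0 I, and all members are in seg s0 I, so in s0; the same for the reverse. -/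
theorem node_mem {L : Ord} (hL : L ∈ node P M s0 F acc I) : L.length ≤ s0.length ∧ ∀ x ∈ L, x ∈ s0 := by
  have key : ∀ L' : Ord, L' ∈ red P M ((cands P M s0 F acc I).filter fun L => permB L (seg s0 I)) →
      L'.length ≤ s0.length ∧ ∀ x ∈ L', x ∈ s0 := by
    intro L' h
    unfold red at h
    rw [List.mem_flatMap] at h
    obtain ⟨k, -, h⟩ := h
    have h1 := List.mem_of_mem_take h
    rw [List.mem_filter] at h1
    have h2 := h1.1
    rw [List.mem_filter] at h2
    have h3 := h2.2
    simp only [permB, Bool.and_eq_true, decide_eq_true_eq, List.all_eq_true] at h3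
    have h4 : (seg s0 I).Sublist s0 := (List.take_sublist _ _).trans (List.drop_sublist _ _)
    refine ⟨?_, fun x hx => h4.subset (h3.2 x hx)⟩
    rw [h3.1.1]
    exact h4.length_le
  unfold node clo at hL
  rw [List.mem_append] at hL
  rcases hL with hL | hL
  · exact key L hL
  · obtain ⟨L', hL', rfl⟩ := List.mem_map.mp hL
    have := key L' hL'
    exact ⟨by simpa using this.1, fun x hx => this.2 x (by simpa using hx)⟩

/-- auxiliary -/
theorem PolB_size_le {β : Type} [Code β] (L : List β) (c : ℕ) (h : ∀ x ∈ L, size x ≤ c) :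
    size L ≤ L.length * (2 * c + 1) := by
  induction L with
  | nil => simp [size_nil]
  | cons W L ih =>
    rw [size_cons, List.length_cons]
    have h1 := h W List.mem_cons_self
    have h2 := ih (fun W' h' => h W' (List.mem_cons_of_mem _ h'))
    have e : (L.length + 1) * (2 * c + 1) = L.length * (2 * c + 1) + (2 * c + 1) := by ring
    omega

/-- PROOF: size_cons, size_nil: size of a list is at most length * (2 * max + 1) (see AlgPoly_size_le in SOS/AlgPoly.lean), size_le_of_mem. L: at most s0.length members, each of size at most size s0. node: node_len, node_mem. rnd: F.length entries (I, node ..), size_pair, size of I at most size F. -/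
theorem rnd_size (P : Par) : ∃ B : Polynomial ℕ, ∀ (M : Mat) (s0 : Ord) (F : List Ivl) (acc : Tab),
    size (rnd P M s0 F acc) ≤ B.eval (size (M, s0, F) + (P.keys M).length) := by
  refine ⟨Polynomial.X * (2 * (2 * Polynomial.X + 1 + 2 * Polynomial.X * (2 * (Polynomial.X * (2 * Polynomial.X + 1)) + 1)) + 1), ?_⟩
  intro M s0 F acc
  have hev : ∀ X : ℕ, (Polynomial.X * (2 * (2 * Polynomial.X + 1 + 2 * Polynomial.X *
      (2 * (Polynomial.X * (2 * Polynomial.X + 1)) + 1)) + 1) : Polynomial ℕ).eval X =
      X * (2 * (2 * X + 1 + 2 * X * (2 * (X * (2 * X + 1)) + 1)) + 1) := by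
    intro X; simp
  rw [hev]
  have hsz : size (M, s0, F) = 2 * size M + 1 + (2 * size s0 + 1 + size F) := by
    rw [size_pair, size_pair]
  have hX1 : size s0 ≤ size (M, s0, F) + (P.keys M).length := by omega
  have hX2 : size F ≤ size (M, s0, F) + (P.keys M).length := by omega
  have hX3 : (P.keys M).length ≤ size (M, s0, F) + (P.keys M).length := by omega
  generalize size (M, s0, F) + (P.keys M).length = X at hX1 hX2 hX3
  have hs := length_le_size s0
  have hF := length_le_size F
  -- members of a node
  have hL : ∀ I : Ivl, ∀ L ∈ node P M s0 F acc I, size L ≤ X * (2 * X + 1) := by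
    intro I L hL
    obtain ⟨h1, h2⟩ := node_mem hL
    refine le_trans (PolB_size_le L X fun x hx => ?_) (Nat.mul_le_mul_right _ (by omega))
    have := size_le_of_mem (h2 x hx)
    omega
  have hN : ∀ I : Ivl, size (node P M s0 F acc I) ≤ 2 * X * (2 * (X * (2 * X + 1)) + 1) := by
    intro I
    refine le_trans (PolB_size_le _ _ (hL I)) (Nat.mul_le_mul_right _ ?_)
    have := node_len (P := P) (M := M) (s0 := s0) (F := F) (acc := acc) (I := I)
    omega
  unfold rnd
  refine le_trans (PolB_size_le _ (2 * X + 1 + 2 * X * (2 * (X * (2 * X + 1)) + 1)) ?_) (Nat.mul_le_mul_right _ ?_)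
  · intro x hx
    obtain ⟨I, hI, rfl⟩ := List.mem_map.mp hx
    rw [size_pair]
    have h1 := size_le_of_mem hI
    have h2 := hN I
    omega
  · rw [List.length_map]; omega

/-- PROOF: Poly.iterate with f := fun x => x.2.1.length (PolyBdd.length), g := [], h := rnd: poly_node and Poly.map. The size of the state: k = 0: [], otherwise Function.iterate_succ_apply' and rnd_size; (P.keys M).length ≤ size (P.keys M) ≤ polynomial (hP.keys, Poly.size_le, length_le_size). -/
theorem poly_tabs (hP : PPar P) : Poly (fun x : Mat × Ord × List Ivl => tabs P x.1 x.2.1 x.2.2 x.2.1.length) := by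
  obtain ⟨B, hB⟩ := rnd_size P
  obtain ⟨Q, hQ⟩ := (hP.keys.comp (f := fun x : Mat × Ord × List Ivl => x.1) (by fun_prop)).size_le
  unfold tabs
  refine Poly.iterate (f := fun x : Mat × Ord × List Ivl => x.2.1.length) (g := fun _ => ([] : Tab))
    (h := fun (x : Mat × Ord × List Ivl) acc => rnd P x.1 x.2.1 x.2.2 acc) (by fun_prop)
    (PolyBdd.length (by fun_prop)) (FP.Poly.const _) ?_ (B.comp (Polynomial.X + Q)) ?_
  · unfold rnd
    refine FP.Poly.map (f := fun p : (Mat × Ord × List Ivl) × Tab => p.1.2.2)
      (g := fun (p : (Mat × Ord × List Ivl) × Tab) I => (I, node P p.1.1 p.1.2.1 p.1.2.2 p.2 I)) (by fun_prop) ?_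
    refine Poly.pair (by fun_prop) ?_
    exact poly_node hP (by fun_prop) (by fun_prop) (by fun_prop) (by fun_prop) (by fun_prop)
  · rintro ⟨M, s0, F⟩ k _
    cases k with
    | zero => simp [size_nil]
    | succ k =>
      rw [Function.iterate_succ_apply']
      refine le_trans (hB M s0 F _) ?_
      rw [Polynomial.eval_comp]
      refine NPC.eval_mono B ?_
      simp only [Polynomial.eval_add, Polynomial.eval_X]
      have h1 := hQ (M, s0, F)
      have h2 := length_le_size (P.keys M)
      simp only at h1
      omega

/-- PROOF: poly_tabs, poly_cands, Poly.any, poly_permB, Poly.append, Poly.take. -/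
theorem poly_solve (hP : PPar P) {tok : Mat → Ord → Bool} (ht : Poly (fun x : Mat × Ord => tok x.1 x.2)) :
    Poly (fun x : Mat × Ord × List Ivl => solve P tok x.1 x.2.1 x.2.2) := by
  unfold solve
  have hc : Poly (fun x : Mat × Ord × List Ivl => cands P x.1 x.2.1 x.2.2 (tabs P x.1 x.2.1 x.2.2 x.2.1.length) (1, x.2.1.length)) :=
    poly_cands hP (by fun_prop) (by fun_prop) (by fun_prop) (poly_tabs hP) (by fun_prop)
  refine Poly.any (f := fun x : Mat × Ord × List Ivl => cands P x.1 x.2.1 x.2.2 (tabs P x.1 x.2.1 x.2.2 x.2.1.length) (1, x.2.1.length))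
    (g := fun (x : Mat × Ord × List Ivl) L => permB (x.2.1.take 1 ++ L) x.2.1 && tok x.1 (x.2.1.take 1 ++ L)) hc ?_
  have h1 : Poly (fun q : (Mat × Ord × List Ivl) × Ord => q.1.2.1.take 1 ++ q.2) :=
    Poly.append (Poly.take (by fun_prop) (by fun_prop)) (by fun_prop)
  refine Poly.and (poly_permB h1 (by fun_prop)) ?_
  exact ht.comp (f := fun q : (Mat × Ord × List Ivl) × Ord => (q.1.1, q.1.2.1.take 1 ++ q.2)) (Poly.pair (by fun_prop) h1)

/-- PROOF: Poly.optionCases, poly_solve. -/
theorem poly_primeD (hP : PPar P) {tok : Mat → Ord → Bool} (ht : Poly (fun x : Mat × Ord => tok x.1 x.2))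
    {base : Mat → Option Ord} (hb : Poly base) {fam : Mat → Ord → List Ivl} (hf : Poly (fun x : Mat × Ord => fam x.1 x.2)) :
    Poly (primeD P tok base fam) := by
  have h1 : Poly (fun q : Mat × Ord => solve P tok q.1 q.2 (fam q.1 q.2)) :=
    (poly_solve hP ht).comp (f := fun q : Mat × Ord => (q.1, q.2, fam q.1 q.2)) (Poly.pair (by fun_prop) (Poly.pair (by fun_prop) hf))
  refine (Poly.optionCases (f := base) (g := fun _ => false) (h := fun M s => solve P tok M s (fam M s)) hb (FP.Poly.const _) h1).congr
    (fun M => ?_)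
  unfold primeD
  cases base M <;> rfl

end Pool.Agent.SOT
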