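import Pool.Agent.SOT.Defs2
import Pool.Agent.SOT.PolB

/-! Project SOT, module PolE (size 3): polynomial time of the family strL and of the algorithm.
-/

set_option autoImplicit false

open Set

namespace Pool.Agent.SOT

open Pool.Agent.SOC Pool.Agent.SOD Pool.Agent.SOS Pool.Agent.SOP Pool.Agent.SOE

open FP

/-- PROOF: Poly.all (List.range M.length: PolyBdd.length), AlgoPoly_rigidB, w4B and hubB as in SOE/EPoly.lean (or its lemmas), Poly.decideMem. -/
theorem poly_epcB : Poly (fun x : Mat × Ord => epcB x.1 x.2) := by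
  unfold epcB
  have hr : ∀ {β : Type} [Code β] {M : β → List (List Bool)}, Poly M → Poly (fun p => List.range (M p).length) :=
    fun h => Poly.range (Poly.length h) (PolyBdd.length h)
  refine Poly.all (hr (by fun_prop)) ?_
  refine Poly.all (hr (by fun_prop)) ?_
  refine Poly.all (hr (by fun_prop)) ?_
  refine Poly.all (hr (by fun_prop)) ?_
  have h1 : Poly (fun p : ((((Mat × Ord) × ℕ) × ℕ) × ℕ) × ℕ => rigidB p.1.1.1.1.1 p.1.1.1.2 p.1.1.2 p.1.2 p.2) :=
    AlgoPoly_rigidB (by fun_prop) (by fun_prop) (by fun_prop) (by fun_prop) (by fun_prop)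
  have h2 : Poly (fun p : ((((Mat × Ord) × ℕ) × ℕ) × ℕ) × ℕ => w4B p.1.1.1.1.1 p.1.1.1.2 p.1.1.2 p.1.2 p.2) :=
    epoly_w4B (by fun_prop) (by fun_prop) (by fun_prop) (by fun_prop) (by fun_prop)
  have m1 : Poly (fun p : ((((Mat × Ord) × ℕ) × ℕ) × ℕ) × ℕ => decide (p.1.1.1.2 ∈ p.1.1.1.1.2)) :=
    Poly.decideMem (by fun_prop) (by fun_prop)
  have m2 : Poly (fun p : ((((Mat × Ord) × ℕ) × ℕ) × ℕ) × ℕ => decide (p.1.1.2 ∈ p.1.1.1.1.2)) :=
    Poly.decideMem (by fun_prop) (by fun_prop)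
  have m3 : Poly (fun p : ((((Mat × Ord) × ℕ) × ℕ) × ℕ) × ℕ => decide (p.1.2 ∈ p.1.1.1.1.2)) :=
    Poly.decideMem (by fun_prop) (by fun_prop)
  have m4 : Poly (fun p : ((((Mat × Ord) × ℕ) × ℕ) × ℕ) × ℕ => decide (p.2 ∈ p.1.1.1.1.2)) :=
    Poly.decideMem (by fun_prop) (by fun_prop)
  exact Poly.not (Poly.and (Poly.or h1 h2) (Poly.and (Poly.xor m1 m2) (Poly.xor m3 m4)))

/-- PROOF: poly_epcB, poly_seg, Poly.flatMap, Poly.map, Poly.filter. -/
theorem PolE_test {α : Type} [Code α] {M : α → Mat} {s0 : α → Ord} {I : α → Ivl} (hM : Poly M) (hs : Poly s0) (hI : Poly I) :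
    Poly (fun a => decide (1 ≤ (I a).1) && decide ((I a).1 + 2 ≤ (I a).2) && decide ((I a).2 + 2 ≤ (s0 a).length + (I a).1) &&
      epcB (M a) (seg (s0 a) (I a))) := by
  have h1 : Poly (fun a => seg (s0 a) (I a)) := poly_seg hs hI
  have h2 : Poly (fun a => epcB (M a) (seg (s0 a) (I a))) :=
    poly_epcB.comp (f := fun a => (M a, seg (s0 a) (I a))) (Poly.pair hM h1)
  have i1 : Poly (fun a => (I a).1) := hI.fst
  have i2 : Poly (fun a => (I a).2) := hI.snd
  have l1 : Poly (fun a => (s0 a).length) := Poly.length hs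
  have h3 : Poly (fun a => decide (1 ≤ (I a).1)) := Poly.decideLe (FP.Poly.const 1) i1
  have h4 : Poly (fun a => decide ((I a).1 + 2 ≤ (I a).2)) := Poly.decideLe (FP.Poly.add i1 (FP.Poly.const 2)) i2
  have h5 : Poly (fun a => decide ((I a).2 + 2 ≤ (s0 a).length + (I a).1)) :=
    Poly.decideLe (FP.Poly.add i2 (FP.Poly.const 2)) (FP.Poly.add l1 i1)
  exact Poly.and (Poly.and (Poly.and h3 h4) h5) h2

theorem PolE_epcL : Poly (fun x : Mat × Ord => epcL x.1 x.2) := by
  unfold epcL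
  have hr : Poly (fun x : Mat × Ord => List.range (x.2.length + 1)) :=
    Poly.range (by fun_prop) ((PolyBdd.length (by fun_prop)).add (PolyBdd.const 1))
  refine Poly.flatMap hr ?_
  have hm : Poly (fun q : (Mat × Ord) × ℕ => (List.range (q.1.2.length + 1)).map fun j => (q.2, j)) :=
    FP.Poly.map (g := fun (q : (Mat × Ord) × ℕ) j => (q.2, j)) (hr.comp Poly.fst') (by fun_prop)
  refine Poly.filter hm ?_
  exact PolE_test (M := fun q : ((Mat × Ord) × ℕ) × (ℕ × ℕ) => q.1.1.1) (s0 := fun q => q.1.1.2) (I := fun q => q.2)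
    (by fun_prop) (by fun_prop) (by fun_prop)

theorem PolE_ovl {α : Type} [Code α] {I J : α → Ivl} (hI : Poly I) (hJ : Poly J) : Poly (fun a => ovl (I a) (J a)) := by
  unfold ovl
  have k : ∀ {f g : α → ℕ}, Poly f → Poly g → Poly (fun a => decide (f a < g a)) := fun h1 h2 => Poly.decideLt h1 h2
  have i1 : Poly (fun a => (I a).1) := hI.fst
  have i2 : Poly (fun a => (I a).2) := hI.snd
  have j1 : Poly (fun a => (J a).1) := hJ.fst
  have j2 : Poly (fun a => (J a).2) := hJ.snd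
  exact Poly.or (Poly.and (Poly.and (k i1 j1) (k j1 i2)) (k i2 j2)) (Poly.and (Poly.and (k j1 i1) (k i1 j2)) (k j2 i2))

theorem poly_strL : Poly (fun x : Mat × Ord => strL x.1 x.2) := by
  unfold strL
  refine Poly.filter (f := fun x : Mat × Ord => epcL x.1 x.2)
    (g := fun (x : Mat × Ord) (I : ℕ × ℕ) => (epcL x.1 x.2).all fun J => !(ovl I J)) PolE_epcL ?_
  refine Poly.all (f := fun q : (Mat × Ord) × (ℕ × ℕ) => epcL q.1.1 q.1.2)
    (g := fun (q : (Mat × Ord) × (ℕ × ℕ)) (J : ℕ × ℕ) => !(ovl q.2 J)) (PolE_epcL.comp Poly.fst') ?_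
  exact Poly.not (PolE_ovl (by fun_prop) (by fun_prop))

/-- PROOF: poly_primeD with poly_eOrder, poly_strL; the parameters parE: hr and Poly.append, Poly.map, Poly.listReverse for clo. -/
theorem poly_primeE {rig : Mat → Ord → List Ivl → List (List Ord) → List Ord} {good : Mat → Ord → Key → Bool} {keys : Mat → List Key}
    (hr : Poly (fun x : Mat × Ord × List Ivl × List (List Ord) => rig x.1 x.2.1 x.2.2.1 x.2.2.2))
    (hg : Poly (fun x : Mat × Ord × Key => good x.1 x.2.1 x.2.2)) (hk : Poly keys)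
    {tok : Mat → Ord → Bool} (ht : Poly (fun x : Mat × Ord => tok x.1 x.2)) :
    Poly (primeD (parE rig good keys) tok eOrder strL) :=
  poly_primeD (P := parE rig good keys) ⟨poly_clo hr, hg, hk⟩ ht poly_eOrder poly_strL

end Pool.Agent.SOT
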