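import Pool.Agent.SOT.Defs

/-! Project SOT, module Arr (size 3): a list all of whose classes are consecutive is a concatenation of the classes (pure lists).
-/

set_option autoImplicit false

namespace Pool.Agent.SOT

open Pool.Agent.SOC Pool.Agent.SOD Pool.Agent.SOS

/-- PROOF. Induction on the length of Ks, for all L. Ks = []: L = [] (no members). Otherwise L ≠ [] (a member of Ks is not empty): L = x :: L₀, x ∈ K for some K ∈ Ks. L = A ++ (B ++ C) with B a permutation of K; x ∈ B; x is the head of L and L has no repetitions, so A = [] (otherwise x ∈ A too).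
So L = B ++ C. Apply the induction hypothesis to Ks.erase K and C: the members of C are the members of the other K' ∈ Ks (disjoint, Nodup); for K' ∈ Ks.erase K: L = A' ++ (B' ++ C'), B' a permutation of K', disjoint from B, K' not empty: B' is behind B: A' = B ++ A'' (List.append_eq_append_iff; if A' were shorter than B then the first
member of B' would be in B, as K' ≠ []), so C = A'' ++ (B' ++ C'). Result: Ks' := K :: (the list for C), Ls := B :: ... -/
theorem arr : ∀ (Ks : List Ord) (L : Ord), L.Nodup → Ks.Nodup → (∀ K ∈ Ks, K ≠ []) → (∀ x, x ∈ L ↔ ∃ K ∈ Ks, x ∈ K) →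
    (∀ K ∈ Ks, ∀ K' ∈ Ks, K ≠ K' → ∀ x ∈ K, x ∉ K') →
    (∀ K ∈ Ks, ∃ A B C, L = A ++ (B ++ C) ∧ B.Perm K) →
    ∃ Ks' : List Ord, Ks'.Perm Ks ∧ ∃ Ls : List Ord, List.Forall₂ (fun L' K => L'.Perm K) Ls Ks' ∧ L = Ls.flatten := by
  have key : ∀ (n : ℕ) (Ks : List Ord) (L : Ord), Ks.length = n → L.Nodup → Ks.Nodup → (∀ K ∈ Ks, K ≠ []) →
      (∀ x, x ∈ L ↔ ∃ K ∈ Ks, x ∈ K) →
      (∀ K ∈ Ks, ∀ K' ∈ Ks, K ≠ K' → ∀ x ∈ K, x ∉ K') →
      (∀ K ∈ Ks, ∃ A B C, L = A ++ (B ++ C) ∧ B.Perm K) →
      ∃ Ks' : List Ord, Ks'.Perm Ks ∧ ∃ Ls : List Ord, List.Forall₂ (fun L' K => L'.Perm K) Ls Ks' ∧ L = Ls.flatten := by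
    intro n
    induction n with
    | zero =>
      intro Ks L hlen hL hK hne hm hd hc
      have hKs : Ks = [] := List.length_eq_zero_iff.mp hlen
      subst hKs
      have hL0 : L = [] := by
        rw [List.eq_nil_iff_forall_not_mem]
        intro x hx
        obtain ⟨K, hK, _⟩ := (hm x).1 hx
        exact absurd hK (by simp)
      subst hL0
      exact ⟨[], List.Perm.refl _, [], List.Forall₂.nil, rfl⟩
    | succ n ih =>
      intro Ks L hlen hL hK hne hm hd hc
      have hKs : Ks ≠ [] := by
        intro h; rw [h] at hlen; simp at hlen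
      obtain ⟨K0, hK0⟩ := List.exists_mem_of_ne_nil Ks hKs
      obtain ⟨x0, hx0⟩ := List.exists_mem_of_ne_nil K0 (hne K0 hK0)
      have hx0L : x0 ∈ L := (hm x0).2 ⟨K0, hK0, hx0⟩
      obtain ⟨x, L0, rfl⟩ : ∃ x L0, L = x :: L0 := by
        cases L with
        | nil => exact absurd hx0L (by simp)
        | cons x L0 => exact ⟨x, L0, rfl⟩
      obtain ⟨K, hKm, hxK⟩ := (hm x).1 (by simp)
      obtain ⟨A, B, C, hABC, hBK⟩ := hc K hKm
      have hxB : x ∈ B := hBK.mem_iff.2 hxK
      have hA : A = [] := by
        cases A with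
        | nil => rfl
        | cons a A' =>
          exfalso
          rw [List.cons_append, List.cons.injEq] at hABC
          obtain ⟨h1, h2⟩ := hABC
          subst h1
          rw [List.nodup_cons] at hL
          exact hL.1 (by rw [h2]; simp [hxB])
      subst hA
      rw [List.nil_append] at hABC
      rw [hABC] at hL hm hc
      have hnd := List.nodup_append.1 hL
      have hBC : ∀ y ∈ B, y ∉ C := fun y hy hy' => hnd.2.2 y hy y hy' rfl
      obtain ⟨Ks1, hp1, Ls1, hf1, hC1⟩ := ih (Ks.erase K) C (by rw [List.length_erase_of_mem hKm, hlen]; rfl) hnd.2.1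
        (hK.erase K) (fun K' hK' => hne K' (List.mem_of_mem_erase hK')) (by
          intro y
          constructor
          · intro hy
            obtain ⟨K', hK', hyK'⟩ := (hm y).1 (by simp [hy])
            refine ⟨K', ?_, hyK'⟩
            rw [hK.mem_erase_iff]
            refine ⟨?_, hK'⟩
            rintro rfl
            exact hBC y (hBK.mem_iff.2 hyK') hy
          · rintro ⟨K', hK', hyK'⟩
            rw [hK.mem_erase_iff] at hK'
            have hyL := (hm y).2 ⟨K', hK'.2, hyK'⟩
            rw [List.mem_append] at hyL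
            rcases hyL with h | h
            · exact absurd hyK' (hd K hKm K' hK'.2 (Ne.symm hK'.1) y (hBK.mem_iff.1 h))
            · exact h)
        (fun K1 hK1 K2 hK2 => hd K1 (List.mem_of_mem_erase hK1) K2 (List.mem_of_mem_erase hK2))
        (by
          intro K' hK'
          rw [hK.mem_erase_iff] at hK'
          obtain ⟨A', B', C', h1, h2⟩ := hc K' hK'.2
          rcases List.append_eq_append_iff.1 h1 with ⟨a', ha1, ha2⟩ | ⟨c', hc1, hc2⟩
          · exact ⟨a', B', C', ha2, h2⟩
          · cases c' with
            | nil => exact ⟨[], B', C', by simpa using hc2.symm, h2⟩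
            | cons c c'' =>
              exfalso
              have hB' : B' ≠ [] := by
                rintro rfl
                exact hne K' hK'.2 (List.nil_perm.1 h2)
              cases B' with
              | nil => exact hB' rfl
              | cons b B'' =>
                rw [List.cons_append, List.cons_append, List.cons.injEq] at hc2
                have hbB : c ∈ B := by rw [hc1]; simp
                have hbK' : c ∈ K' := h2.mem_iff.1 (by rw [← hc2.1]; simp)
                exact hd K hKm K' hK'.2 (Ne.symm hK'.1) c (hBK.mem_iff.1 hbB) hbK')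
      refine ⟨K :: Ks1, (hp1.cons K).trans (List.perm_cons_erase hKm).symm, B :: Ls1, List.Forall₂.cons hBK hf1, ?_⟩
      rw [hABC, List.flatten_cons, hC1]
  intro Ks L
  exact key Ks.length Ks L rfl

/-- PROOF. Let u ++ (v ++ w) = L ++ R. Case v.Perm S: if v = []: S = []: A = L, B = C = []. Otherwise all members of v are in L, not in R (Nodup); so u ++ v is not longer than L (otherwise the last member of v is in R: List.append_eq_append_iff), L = u ++ (v ++ C).
Case (w ++ u).Perm S: w = []: otherwise the last member of w is the last member of L ++ R, which is in R (R ≠ []), but it is in S, so in L: contradiction to Nodup. u is in L: L = [] ++ (u ++ C). -/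
theorem cyc_seg {L R S : Ord} (hn : (L ++ R).Nodup) (hR : R ≠ []) (hS : ∀ x ∈ S, x ∈ L) (h : Cyc (L ++ R) S) :
    ∃ A B C, L = A ++ (B ++ C) ∧ B.Perm S := by
  have hdj : ∀ z ∈ L, z ∉ R := fun z hz hz' => (List.nodup_append.1 hn).2.2 z hz z hz' rfl
  obtain ⟨u, v, w, h1, h2⟩ := h
  rcases h2 with h2 | h2
  · rw [← List.append_assoc] at h1
    rcases List.append_eq_append_iff.1 h1 with ⟨a', ha1, ha2⟩ | ⟨c', hc1, hc2⟩
    · rcases List.eq_nil_or_concat a' with ha | ⟨a'', z, ha⟩
      · subst ha
        exact ⟨u, v, [], by simpa using ha1.symm, h2⟩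
      · rcases List.eq_nil_or_concat v with hv | ⟨v', z', hv⟩
        · subst hv
          exact ⟨L, [], [], by simp, h2⟩
        · exfalso
          subst ha
          subst hv
          have e1 : (u ++ v') ++ [z'] = (L ++ a'') ++ [z] := by
            simpa using ha1
          have e2 := List.append_inj_right' e1 rfl
          have e3 : z' = z := by simpa using e2
          subst e3
          have hzL : z' ∈ L := hS _ (h2.mem_iff.1 (by simp))
          exact hdj _ hzL (by rw [ha2]; simp)
    · exact ⟨u, v, c', by rw [hc1, List.append_assoc], h2⟩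
  · rcases List.eq_nil_or_concat w with hw | ⟨w', z', hw⟩
    · subst hw
      rw [List.append_nil] at h1
      rw [List.nil_append] at h2
      rcases List.append_eq_append_iff.1 h1 with ⟨a', ha1, ha2⟩ | ⟨c', hc1, hc2⟩
      · cases a' with
        | nil => exact ⟨[], u, [], by simpa using ha1.symm, h2⟩
        | cons a a'' =>
          exfalso
          have : a ∈ L := hS _ (h2.mem_iff.1 (by rw [ha1]; simp))
          exact hdj _ this (by rw [ha2]; simp)
      · exact ⟨[], u, c', by simpa using hc1, h2⟩
    · exfalso
      subst hw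
      rcases List.eq_nil_or_concat R with hR' | ⟨R', z, hR'⟩
      · exact hR hR'
      · subst hR'
        have e1 : (L ++ R') ++ [z] = (u ++ (v ++ w')) ++ [z'] := by
          simpa using h1
        have e2 := List.append_inj_right' e1 rfl
        have e3 : z = z' := by simpa using e2
        subst e3
        have hzL : z ∈ L := hS _ (h2.mem_iff.1 (by simp))
        exact hdj _ hzL (by simp)

end Pool.Agent.SOT
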