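import Pool.Agent.SOT.Defs

/-! Project SOT, module Kid (size 3): the children of an interval.
-/

set_option autoImplicit false

namespace Pool.Agent.SOT

open Pool.Agent.SOC Pool.Agent.SOD Pool.Agent.SOS

variable {n : ℕ} {F : List Ivl} {I K : Ivl}

theorem kid_hidden {p : ℕ} : hidden F I p = true ↔
    ∃ J ∈ F, J ≠ I ∧ I.1 ≤ J.1 ∧ J.2 ≤ I.2 ∧ J.1 < p ∧ p < J.2 := by
  unfold hidden
  rw [List.any_eq_true]
  refine exists_congr fun J => and_congr_right fun _ => ?_
  simp only [Bool.and_eq_true, decide_eq_true_eq, and_assoc]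

theorem kid_mem {p : ℕ} : p ∈ bds n F I ↔ p ≤ n ∧ I.1 ≤ p ∧ p ≤ I.2 ∧ ¬ hidden F I p = true := by
  unfold bds
  rw [List.mem_filter, List.mem_range]
  simp only [Bool.and_eq_true, decide_eq_true_eq, and_assoc, Bool.not_eq_true', Nat.lt_succ_iff,
    Bool.not_eq_true]

theorem kid_sorted (n : ℕ) (F : List Ivl) (I : Ivl) : (bds n F I).Pairwise (· < ·) :=
  List.Pairwise.filter _ List.pairwise_lt_range

theorem kid_zip : ∀ (L : List ℕ), L.Pairwise (· < ·) → ∀ K : Ivl, (K ∈ L.zip L.tail ↔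
    K.1 ∈ L ∧ K.2 ∈ L ∧ K.1 < K.2 ∧ ∀ x ∈ L, ¬ (K.1 < x ∧ x < K.2))
  | [], _, K => by simp
  | [a], _, K => by
    constructor
    · intro h
      simp at h
    · rintro ⟨h1, h2, h3, -⟩
      rw [List.mem_singleton] at h1 h2
      omega
  | a :: b :: L, hL, K => by
    have hab : a < b := List.rel_of_pairwise_cons hL (List.mem_cons_self)
    have ha : ∀ x ∈ b :: L, a < x := fun x hx => List.rel_of_pairwise_cons hL hx
    have hL' : (b :: L).Pairwise (· < ·) := (List.pairwise_cons.1 hL).2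
    have hb : ∀ x ∈ b :: L, b ≤ x := by
      intro x hx
      rcases List.mem_cons.1 hx with h | h
      · exact h.ge
      · exact (List.rel_of_pairwise_cons hL' h).le
    have ih := kid_zip (b :: L) hL' K
    have e : (a :: b :: L).zip (a :: b :: L).tail = (a, b) :: (b :: L).zip (b :: L).tail := rfl
    rw [e, List.mem_cons, ih]
    constructor
    · rintro (h | ⟨h1, h2, h3, h4⟩)
      · subst h
        refine ⟨List.mem_cons_self, List.mem_cons_of_mem _ List.mem_cons_self, hab, ?_⟩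
        intro x hx hc
        rcases List.mem_cons.1 hx with h | h
        · have := hc.1
          simp only at this
          omega
        · have h1 := hb x h
          have := hc.2
          simp only at this
          omega
      · refine ⟨List.mem_cons_of_mem _ h1, List.mem_cons_of_mem _ h2, h3, ?_⟩
        intro x hx hc
        rcases List.mem_cons.1 hx with h | h
        · have := ha _ h1
          omega
        · exact h4 x h hc
    · rintro ⟨h1, h2, h3, h4⟩
      have h2' : K.2 ∈ b :: L := by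
        rcases List.mem_cons.1 h2 with h | h
        · rcases List.mem_cons.1 h1 with h' | h'
          · omega
          · have := ha _ h'
            omega
        · exact h
      rcases List.mem_cons.1 h1 with h | h
      · left
        have h5 := h4 b (List.mem_cons_of_mem _ List.mem_cons_self)
        have h6 := hb _ h2'
        have h7 : K.2 = b := by
          by_contra hne
          exact h5 ⟨by omega, by omega⟩
        exact Prod.ext h h7
      · right
        exact ⟨h, h2', h3, fun x hx => h4 x (List.mem_cons_of_mem _ hx)⟩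

theorem kid_seg (s0 : Ord) {a b c : ℕ} (h1 : a ≤ b) (h2 : b ≤ c) :
    seg s0 (a, b) ++ seg s0 (b, c) = seg s0 (a, c) := by
  unfold seg
  simp only
  have e1 : c - a = (b - a) + (c - b) := by omega
  have e2 : s0.drop b = (s0.drop a).drop (b - a) := by
    rw [List.drop_drop]
    congr 1
    omega
  rw [e1, List.take_add, e2]

theorem kid_flat (s0 : Ord) : ∀ (L : List ℕ), L.Pairwise (· < ·) → ∀ a b, a ∈ L → b ∈ L →
    (∀ x ∈ L, a ≤ x) → (∀ x ∈ L, x ≤ b) →
    ((L.zip L.tail).map (seg s0)).flatten = seg s0 (a, b)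
  | [], _, a, b, ha, _, _, _ => absurd ha List.not_mem_nil
  | [x], _, a, b, ha, hb, _, _ => by
    rw [List.mem_singleton] at ha hb
    subst ha
    subst hb
    unfold seg
    simp
  | x :: y :: L, hL, a, b, ha, hb, h1, h2 => by
    have hxy : ∀ z ∈ y :: L, x < z := fun z hz => List.rel_of_pairwise_cons hL hz
    have hL' : (y :: L).Pairwise (· < ·) := (List.pairwise_cons.1 hL).2
    have hy : ∀ z ∈ y :: L, y ≤ z := by
      intro z hz
      rcases List.mem_cons.1 hz with h | h
      · exact h.ge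
      · exact (List.rel_of_pairwise_cons hL' h).le
    have hax : a = x := by
      rcases List.mem_cons.1 ha with h | h
      · exact h
      · have h3 := hxy a h
        have h4 := h1 x List.mem_cons_self
        omega
    subst hax
    have hyb := h2 y (List.mem_cons_of_mem _ List.mem_cons_self)
    have hay := hxy y List.mem_cons_self
    have hb' : b ∈ y :: L := by
      rcases List.mem_cons.1 hb with h | h
      · omega
      · exact h
    have ih := kid_flat s0 (y :: L) hL' y b List.mem_cons_self hb' hy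
      (fun z hz => h2 z (List.mem_cons_of_mem _ hz))
    have e : (a :: y :: L).zip (a :: y :: L).tail = (a, y) :: (y :: L).zip (y :: L).tail := rfl
    rw [e, List.map_cons, List.flatten_cons, ih]
    exact kid_seg s0 hay.le hyb

theorem kid_lo (h : I.1 < I.2) (hn : I.2 ≤ n) : I.1 ∈ bds n F I := by
  rw [kid_mem]
  refine ⟨by omega, le_refl _, h.le, fun hc => ?_⟩
  obtain ⟨J, _, _, h1, _, h2, _⟩ := kid_hidden.1 hc
  omega

theorem kid_hi (h : I.1 < I.2) (hn : I.2 ≤ n) : I.2 ∈ bds n F I := by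
  rw [kid_mem]
  refine ⟨hn, h.le, le_refl _, fun hc => ?_⟩
  obtain ⟨J, _, _, _, h1, _, h2⟩ := kid_hidden.1 hc
  omega

theorem kid_iff : K ∈ kids n F I ↔
    K.1 ∈ bds n F I ∧ K.2 ∈ bds n F I ∧ K.1 < K.2 ∧ ∀ x ∈ bds n F I, ¬ (K.1 < x ∧ x < K.2) :=
  kid_zip _ (kid_sorted n F I) K

/-- PROOF. bds n F I is strictly increasing (a filter of range), it starts with I.1 and ends with I.2 (hidden is false for I.1 and I.2: a member J inside I with J.1 < I.1 or I.2 < J.2 does not exist), so its length is at least two (I.1 < I.2).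
Let (b, b') be consecutive members: b < b', no member of bds strictly between. If b' ≠ b + 1 then b + 1 is hidden: there is J ∈ F, J ≠ I, inside I, J.1 < b + 1 < J.2; J.1 ≤ b; J.1 < b would hide b. So J.1 = b. Take among the J ∈ F, J ≠ I, inside I with J.1 = b, b + 1 < J.2 the one with the largest
J.2 =: c. c > b' would hide b'. If c < b' then c is not in bds, so it is hidden: J' ∈ F, J' ≠ I, J'.1 < c < J'.2; no overlap of J' and J (lam): J'.1 ≤ b; J'.1 < b would hide b (b < c < J'.2); so J'.1 = b and J'.2 > c: contradiction to the choice. So c = b' and (b, b') ∈ F. -/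
theorem kids_mem (hF : Lam n F) (h : I.1 < I.2) (hn : I.2 ≤ n) (hK : K ∈ kids n F I) :
    (K.2 = K.1 + 1 ∨ (K ∈ F ∧ K ≠ I)) ∧ I.1 ≤ K.1 ∧ K.1 < K.2 ∧ K.2 ≤ I.2 := by
  classical
  obtain ⟨k1, k2, k3, k4⟩ := kid_iff.1 hK
  obtain ⟨a1, a2, a3, a4⟩ := kid_mem.1 k1
  obtain ⟨b1, b2, b3, b4⟩ := kid_mem.1 k2
  refine ⟨?_, a2, k3, b3⟩
  by_cases hs : K.2 = K.1 + 1
  · exact Or.inl hs
  right
  -- a point strictly between is hidden
  have hid : ∀ p, K.1 < p → p < K.2 → ∃ J ∈ F, J ≠ I ∧ I.1 ≤ J.1 ∧ J.2 ≤ I.2 ∧ J.1 < p ∧ p < J.2 := by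
    intro p h1 h2
    by_contra hc
    refine k4 p (kid_mem.2 ⟨by omega, by omega, by omega, fun hh => hc (kid_hidden.1 hh)⟩) ⟨h1, h2⟩
  let P : ℕ → Prop := fun c => ∃ J ∈ F, J ≠ I ∧ I.1 ≤ J.1 ∧ J.2 ≤ I.2 ∧ J.1 = K.1 ∧ K.1 + 1 < J.2 ∧ J.2 = c
  obtain ⟨J0, j1, j2, j3, j4, j5, j6⟩ := hid (K.1 + 1) (by omega) (by omega)
  have hJ0 : J0.1 = K.1 := by
    by_contra hne
    exact a4 (kid_hidden.2 ⟨J0, j1, j2, j3, j4, by omega, by omega⟩)
  have hP0 : P J0.2 := ⟨J0, j1, j2, j3, j4, hJ0, j6, rfl⟩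
  have hPc : P (Nat.findGreatest P I.2) := Nat.findGreatest_spec j4 hP0
  obtain ⟨J, l1, l2, l3, l4, l5, l6, l7⟩ := hPc
  have hle : ∀ J' ∈ F, J' ≠ I → I.1 ≤ J'.1 → J'.2 ≤ I.2 → J'.1 = K.1 → K.1 + 1 < J'.2 → J'.2 ≤ J.2 := by
    intro J' m1 m2 m3 m4 m5 m6
    rw [l7]
    exact Nat.le_findGreatest m4 ⟨J', m1, m2, m3, m4, m5, m6, rfl⟩
  have hc1 : J.2 ≤ K.2 := by
    by_contra hc
    exact b4 (kid_hidden.2 ⟨J, l1, l2, l3, l4, by omega, by omega⟩)
  have hc2 : J.2 = K.2 := by
    by_contra hc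
    obtain ⟨J', m1, m2, m3, m4, m5, m6⟩ := hid J.2 (by omega) (by omega)
    have hov := hF.lam J l1 J' m1
    unfold ovl at hov
    simp only [Bool.or_eq_false_iff, Bool.and_eq_false_iff, decide_eq_false_iff_not] at hov
    have h1 : ¬ J.1 < J'.1 := by
      rcases hov.1 with (h | h) | h
      · exact h
      · exact absurd m5 h
      · exact absurd m6 h
    have h2 : J'.1 = K.1 := by
      by_contra hne
      exact a4 (kid_hidden.2 ⟨J', m1, m2, m3, m4, by omega, by omega⟩)
    have h3 := hle J' m1 m2 m3 m4 h2 (by omega)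
    omega
  have hJK : J = K := Prod.ext l5 hc2
  rw [← hJK]
  exact ⟨l1, l2⟩

/-- PROOF. By induction over the list of boundaries: for a list b₀ < b₁ < ... < b_k (List.Pairwise (· < ·) or IsChain) the segments of the consecutive pairs concatenate to seg s0 (b₀, b_k): drop b₀ (take (b₁ - b₀)) followed by the rest (List.take_append..., List.drop_drop, List.take_add). (It holds without a bound on the length of s0, since seg of
(a, b) followed by seg of (b, c) is seg of (a, c) for a ≤ b ≤ c.) -/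
theorem kids_flat (s0 : Ord) (hF : Lam n F) (h : I.1 < I.2) (hn : I.2 ≤ n) : ((kids n F I).map (seg s0)).flatten = seg s0 I :=
  kid_flat s0 _ (kid_sorted n F I) I.1 I.2 (kid_lo h hn) (kid_hi h hn)
    (fun _ hx => (kid_mem.1 hx).2.1) (fun _ hx => (kid_mem.1 hx).2.2.1)

/-- PROOF. J.1 is in I. Let (b, b') be the pair of consecutive boundaries with b ≤ J.1 < b' (it exists since bds starts with I.1 ≤ J.1 and ends with I.2 > J.1). b' < J.2 is impossible (b' would be hidden: J.1 < b' < J.2). -/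
theorem kids_max (hF : Lam n F) (h : I.1 < I.2) (hn : I.2 ≤ n) {J : Ivl} (hJ : J ∈ F) (hJI : J ≠ I) (h1 : I.1 ≤ J.1) (h2 : J.2 ≤ I.2) :
    ∃ K ∈ kids n F I, K.1 ≤ J.1 ∧ J.2 ≤ K.2 := by
  classical
  have hlen := hF.len J hJ
  have hlo := kid_lo (F := F) h hn
  have hhi := kid_hi (F := F) h hn
  have hb := Nat.findGreatest_spec (P := fun p => p ∈ bds n F I) h1 hlo
  have hb1 := Nat.findGreatest_le (P := fun p => p ∈ bds n F I) J.1
  have hb2 : ∀ x ∈ bds n F I, x ≤ J.1 → x ≤ Nat.findGreatest (fun p => p ∈ bds n F I) J.1 :=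
    fun x hx hxJ => Nat.le_findGreatest (P := fun p => p ∈ bds n F I) hxJ hx
  have hex : ∃ p, p ∈ bds n F I ∧ J.1 < p := ⟨I.2, hhi, by omega⟩
  have hc := Nat.find_spec hex
  have hc2 : ∀ x ∈ bds n F I, J.1 < x → Nat.find hex ≤ x := fun x hx hxJ => Nat.find_min' hex ⟨hx, hxJ⟩
  refine ⟨(Nat.findGreatest (fun p => p ∈ bds n F I) J.1, Nat.find hex), kid_iff.2
    ⟨hb, hc.1, lt_of_le_of_lt hb1 hc.2, ?_⟩, hb1, ?_⟩
  · intro x hx hcon
    rcases Nat.lt_or_ge J.1 x with h3 | h3
    · exact absurd (hc2 x hx h3) (not_le.2 hcon.2)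
    · exact absurd (hb2 x hx h3) (not_le.2 hcon.1)
  · by_contra hcon
    exact (kid_mem.1 hc.1).2.2.2 (kid_hidden.2 ⟨J, hJ, hJI, h1, h2, hc.2, not_le.1 hcon⟩)

/-- PROOF. kids_mem: inside I; if K.2 - K.1 = I.2 - I.1 then K = I: not possible in the second case, in the first case K.2 - K.1 = 1. -/
theorem kids_lt (hF : Lam n F) (h : I.1 + 2 ≤ I.2) (hn : I.2 ≤ n) (hK : K ∈ kids n F I) : K.2 - K.1 < I.2 - I.1 := by
  obtain ⟨h1, h2, h3, h4⟩ := kids_mem hF (by omega) hn hK
  by_contra hc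
  have e1 : K.1 = I.1 := by omega
  have e2 : K.2 = I.2 := by omega
  rcases h1 with h5 | ⟨_, h5⟩
  · omega
  · exact h5 (Prod.ext e1 e2)

theorem kid_pair : ∀ (L : List ℕ), L.Pairwise (· < ·) →
    (L.zip L.tail).Pairwise (fun K K' : Ivl => K.2 ≤ K'.1)
  | [], _ => List.Pairwise.nil
  | [_], _ => List.Pairwise.nil
  | a :: b :: L, hL => by
    have hL' : (b :: L).Pairwise (· < ·) := (List.pairwise_cons.1 hL).2
    have e : (a :: b :: L).zip (a :: b :: L).tail = (a, b) :: (b :: L).zip (b :: L).tail := rfl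
    rw [e, List.pairwise_cons]
    refine ⟨fun K hK => ?_, kid_pair (b :: L) hL'⟩
    have h1 := ((kid_zip (b :: L) hL' K).1 hK).1
    rcases List.mem_cons.1 h1 with h | h
    · exact h.ge
    · exact (List.rel_of_pairwise_cons hL' h).le

/-- PROOF. The list of boundaries is strictly increasing. -/
theorem kids_sort (n : ℕ) (F : List Ivl) (I : Ivl) : (kids n F I).Pairwise (fun K K' => K.2 ≤ K'.1) ∧ ∀ K ∈ kids n F I, K.1 < K.2 :=
  ⟨kid_pair _ (kid_sorted n F I), fun _ hK => (kid_iff.1 hK).2.2.1⟩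

/-- PROOF. kids_sort: Pairwise and K.1 < K.2 imply that the members are different. -/
theorem kids_nodup (n : ℕ) (F : List Ivl) (I : Ivl) : (kids n F I).Nodup := by
  refine (kids_sort n F I).1.imp_of_mem ?_
  intro K K' hK _ h e
  have h1 := (kids_sort n F I).2 K hK
  rw [← e] at h
  omega

end Pool.Agent.SOT
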