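import Pool.Agent.SOT.Rot
import Pool.Agent.SOT.Kid
import Pool.Agent.SOT.Arr

/-! Project SOT, module ArrV (size 3): the part of a SOC order in an interval is a concatenation of orders of the children.
-/

set_option autoImplicit false

namespace Pool.Agent.SOT

open Pool.Agent.SOC Pool.Agent.SOD Pool.Agent.SOS

variable {P : Par} {M : Mat} {s0 : Ord} {F : List Ivl}

theorem ArrV_lift {α β : Type*} (f : α → β) {l l' : List β} (h : l.Perm l') :
    ∀ k : List α, l = k.map f → ∃ k' : List α, k'.Perm k ∧ k'.map f = l' := by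
  induction h with
  | nil => intro k hk; exact ⟨k, List.Perm.refl _, hk.symm⟩
  | cons x _ ih =>
    intro k hk
    cases k with
    | nil => simp at hk
    | cons a k1 =>
      rw [List.map_cons, List.cons.injEq] at hk
      obtain ⟨k', hp, hm⟩ := ih k1 hk.2
      exact ⟨a :: k', hp.cons a, by rw [List.map_cons, hm, hk.1]⟩
  | swap x y l =>
    intro k hk
    cases k with
    | nil => simp at hk
    | cons a k1 =>
      cases k1 with
      | nil => simp at hk
      | cons b k2 =>
        rw [List.map_cons, List.map_cons, List.cons.injEq, List.cons.injEq] at hk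
        exact ⟨b :: a :: k2, List.Perm.swap _ _ _, by rw [List.map_cons, List.map_cons, hk.1, hk.2.1, hk.2.2]⟩
  | trans _ _ ih1 ih2 =>
    intro k hk
    obtain ⟨k1, hp1, hm1⟩ := ih1 k hk
    obtain ⟨k2, hp2, hm2⟩ := ih2 k1 hm1.symm
    exact ⟨k2, hp2.trans hp1, hm2⟩

theorem ArrV_len (s0 : Ord) (K : Ivl) (h : K.2 ≤ s0.length) : (seg s0 K).length = K.2 - K.1 := by
  unfold seg
  rw [List.length_take, List.length_drop]
  omega

/-- PROOF. R ≠ []: L has I.2 - I.1 < M.length elements (I.1 ≥ 1, I.2 ≤ s0.length; vo_perm for the length of L ++ R). For every K ∈ kids F I there are A, B, C with L = A ++ (B ++ C), B a permutation of seg s0 K: kids_mem: K ∈ F: h.int and cyc_seg (seg s0 K ⊆ seg s0 I since K is inside I, L.Perm);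
or K.2 = K.1 + 1: seg s0 K is one element [x], x ∈ L, List.append_of_mem. arr for the list (kids F I).map (seg s0): no repetitions and disjoint (s0 has no repetitions, the positions are different), not empty, union = seg s0 I (kids_flat). The permutation Ks' of (kids F I).map (seg s0) is Ks.map (seg s0) for a permutation Ks of kids F I
(e.g. List.Perm.exists or: a permutation of a map is the map of a permutation; prove by induction on Perm, or List.map_perm_map_iff style), and Forall₂ for Ks.map gives Forall₂ for Ks (List.forall₂_map_right_iff). -/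
theorem arr_vo (h : Hyp P M s0 F) {I : Ivl} (hI : Nod s0.length F I) {L R : Ord} (hL : L.Perm (seg s0 I)) (hV : VO M (L ++ R)) :
    ∃ Ks : List Ivl, Ks.Perm (kids s0.length F I) ∧ ∃ Ls : List Ord, List.Forall₂ (fun L' K => L'.Perm (seg s0 K)) Ls Ks ∧ L = Ls.flatten := by
  have hlen0 : s0.length = M.length := by rw [h.base.length_eq, List.length_range]
  have hfour := h.four
  have hb : 1 ≤ I.1 ∧ I.1 < I.2 ∧ I.2 ≤ s0.length := by
    rcases hI with hI | hI
    · have := h.fam.lo I hI
      have h2 := h.fam.len I hI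
      have h3 := h.fam.hi I hI
      omega
    · subst hI
      refine ⟨le_refl _, ?_, le_refl _⟩
      show 1 < s0.length
      omega
  obtain ⟨hb1, hb2, hb3⟩ := hb
  have hs0 : s0.Nodup := h.base.nodup_iff.2 List.nodup_range
  have hpV := vo_perm hV
  have hn : (L ++ R).Nodup := hpV.nodup_iff.2 List.nodup_range
  have hR : R ≠ [] := by
    rintro rfl
    have e1 := hpV.length_eq
    rw [List.append_nil, List.length_range, hL.length_eq, ArrV_len s0 I hb3] at e1
    omega
  have hfl := kids_flat s0 h.fam hb2 hb3
  have hsegn : (seg s0 I).Nodup := by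
    unfold seg
    exact hs0.sublist ((List.take_sublist _ _).trans (List.drop_sublist _ _))
  have hk := fun K (hK : K ∈ kids s0.length F I) => kids_mem h.fam hb2 hb3 hK
  have hne : ∀ K ∈ kids s0.length F I, seg s0 K ≠ [] := by
    intro K hK hnil
    obtain ⟨_, h1, h2, h3⟩ := hk K hK
    have := ArrV_len s0 K (by omega)
    rw [hnil, List.length_nil] at this
    omega
  have hmem : ∀ x, x ∈ L ↔ ∃ S ∈ (kids s0.length F I).map (seg s0), x ∈ S := by
    intro x
    rw [hL.mem_iff, ← hfl, List.mem_flatten]
  have hpw : ((kids s0.length F I).map (seg s0)).Pairwise List.Disjoint := by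
    have := hsegn
    rw [← hfl, List.nodup_flatten] at this
    exact this.2
  have hnd : ((kids s0.length F I).map (seg s0)).Nodup := by
    refine List.Pairwise.imp_of_mem ?_ hpw
    rintro S S' hS hS' hd rfl
    rw [List.mem_map] at hS
    obtain ⟨K, hK, rfl⟩ := hS
    obtain ⟨x, hx⟩ := List.exists_mem_of_ne_nil _ (hne K hK)
    exact hd hx hx
  obtain ⟨Ks', hp, Ls, hf, hLs⟩ := arr ((kids s0.length F I).map (seg s0)) L (List.nodup_append.1 hn).1 hnd
    (by
      intro S hS
      rw [List.mem_map] at hS
      obtain ⟨K, hK, rfl⟩ := hS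
      exact hne K hK)
    hmem
    (by
      intro S hS S' hS' hne' x hx hx'
      have : Std.Symm (List.Disjoint (α := ℕ)) := ⟨fun a b hab => hab.symm⟩
      exact List.Pairwise.forall hpw hS hS' hne' hx hx')
    (by
      intro S hS
      have hSL : ∀ x ∈ S, x ∈ L := fun x hx => (hmem x).2 ⟨S, hS, hx⟩
      rw [List.mem_map] at hS
      obtain ⟨K, hK, rfl⟩ := hS
      obtain ⟨h0, h1, h2, h3⟩ := hk K hK
      rcases h0 with h0 | h0
      · have hl := ArrV_len s0 K (by omega)
        have hl1 : (seg s0 K).length = 1 := by rw [hl]; omega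
        obtain ⟨x, hx⟩ := List.length_eq_one_iff.1 hl1
        rw [hx] at hSL ⊢
        obtain ⟨u, v, huv⟩ := List.append_of_mem (hSL x (by simp))
        exact ⟨u, [x], v, by simpa using huv, List.Perm.refl _⟩
      · exact cyc_seg hn hR hSL (h.int _ hV K h0.1))
  obtain ⟨Ks, hp2, hm2⟩ := ArrV_lift (seg s0) hp.symm (kids s0.length F I) rfl
  refine ⟨Ks, hp2, Ls, ?_, hLs⟩
  rw [← hm2, List.forall₂_map_right_iff] at hf
  exact hf

end Pool.Agent.SOT
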