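import Pool.Agent.SOT.Defs

/-! Project SOT, module Betw (size 3): two linear orders with the same betweenness are equal or reversed (pure lists).
-/

set_option autoImplicit false

open Set

namespace Pool.Agent.SOT

open Pool.Agent.SOC Pool.Agent.SOD Pool.Agent.SOS Pool.Agent.SOP Pool.Agent.SOE

theorem betw_core {β : Type} [DecidableEq β] {x : β} {m m' : List β} (hl : (x :: m).Nodup) (hl' : (x :: m').Nodup)
    (hm : ∀ z, z ∈ x :: m ↔ z ∈ x :: m')
    (h : ∀ a ∈ x :: m, ∀ b ∈ x :: m, ∀ c ∈ x :: m, a ≠ b → c ≠ b → a ≠ c →
      (((x :: m).idxOf a < (x :: m).idxOf b ↔ (x :: m).idxOf c < (x :: m).idxOf b) ↔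
        ((x :: m').idxOf a < (x :: m').idxOf b ↔ (x :: m').idxOf c < (x :: m').idxOf b))) :
    x :: m' = x :: m := by
  have pos : ∀ (n : List β) (b : β), b ≠ x → (x :: n).idxOf x < (x :: n).idxOf b := by
    intro n b hb
    rw [List.idxOf_cons_self, List.idxOf_cons_ne _ hb.symm]
    exact Nat.succ_pos _
  refine (list_eq_of_idx hl hl' hm ?_).symm
  intro a ha b hb hab hlt
  by_cases ax : a = x
  · subst ax
    exact pos m b hab.symm
  · by_cases bx : b = x
    · subst bx
      rw [List.idxOf_cons_self] at hlt
      exact absurd hlt (Nat.not_lt_zero _)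
    · have h1 := h x List.mem_cons_self b hb a ha (fun e => bx e.symm) hab (fun e => ax e.symm)
      have h2 : ((x :: m').idxOf x < (x :: m').idxOf b ↔ (x :: m').idxOf a < (x :: m').idxOf b) :=
        ⟨fun _ => hlt, fun _ => pos m' b bx⟩
      exact (h1.2 h2).1 (pos m b bx)

theorem betw_rev {β : Type} [DecidableEq β] {l : List β} (hl : l.Nodup) {a b : β} (ha : a ∈ l) (hb : b ∈ l) (hab : a ≠ b) :
    l.reverse.idxOf a < l.reverse.idxOf b ↔ ¬ l.idxOf a < l.idxOf b := by
  constructor
  · intro h
    have := idx_reverse hl ha hb h
    omega
  · intro h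
    have h1 : l.idxOf a ≠ l.idxOf b := fun e => hab ((List.idxOf_inj ha).1 e)
    have h2 : l.reverse.reverse.idxOf b < l.reverse.reverse.idxOf a := by
      rw [List.reverse_reverse]
      omega
    exact idx_reverse (List.nodup_reverse.2 hl) (List.mem_reverse.2 hb) (List.mem_reverse.2 ha) h2

/-- PROOF. Let l, l' be lists without repetitions with the same members and the same relation: b is between a and c (exactly one of a, c is before b). If l has at most one member: equal. Otherwise let x be the first member of l. x is not between two other members, so x is the first or the last member of l' (if x = l'_i with 0 < i < length - 1 it is between l'_0 and the last).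
If it is the last, replace l' by its reverse (betweenness is the same). So l = x :: m, l' = x :: m'. For a, b ∈ m: a is before b in l iff a is between x and b; the same in l'. So the order of m and m' is the same: m = m' (e.g. induction or list_eq_of_idx in SOC/Unique.lean). See lists_of_const in SOC/Unique.lean for a similar proof. -/
theorem betw {β : Type} [DecidableEq β] {l l' : List β} (hl : l.Nodup) (hl' : l'.Nodup) (hm : ∀ x, x ∈ l ↔ x ∈ l')
    (h : ∀ a ∈ l, ∀ b ∈ l, ∀ c ∈ l, a ≠ b → c ≠ b → a ≠ c →
      ((l.idxOf a < l.idxOf b ↔ l.idxOf c < l.idxOf b) ↔ (l'.idxOf a < l'.idxOf b ↔ l'.idxOf c < l'.idxOf b))) :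
    l' = l ∨ l' = l.reverse := by
  cases l with
  | nil =>
    left
    cases l' with
    | nil => rfl
    | cons y t => exact absurd ((hm y).2 List.mem_cons_self) List.not_mem_nil
  | cons x m =>
    obtain ⟨u, v, huv⟩ := List.append_of_mem ((hm x).1 List.mem_cons_self)
    cases u with
    | nil =>
      left
      rw [List.nil_append] at huv
      subst huv
      exact betw_core hl hl' hm h
    | cons a u =>
      cases v with
      | nil =>
        right
        have hrev : l'.reverse = x :: (a :: u).reverse := by
          rw [huv, List.reverse_append]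
          rfl
        have h1 : x :: (a :: u).reverse = x :: m := by
          refine betw_core hl ?_ ?_ ?_
          · rw [← hrev]
            exact List.nodup_reverse.2 hl'
          · intro z
            rw [← hrev, List.mem_reverse]
            exact hm z
          · intro p hp q hq r hr hpq hrq hpr
            rw [← hrev, betw_rev hl' ((hm p).1 hp) ((hm q).1 hq) hpq, betw_rev hl' ((hm r).1 hr) ((hm q).1 hq) hrq,
              not_iff_not]
            exact h p hp q hq r hr hpq hrq hpr
        rw [← h1, ← hrev, List.reverse_reverse]
      | cons c v =>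
        exfalso
        have hal' : a ∈ l' := by rw [huv]; simp
        have hcl' : c ∈ l' := by rw [huv]; simp
        have hxl' : x ∈ l' := by rw [huv]; simp
        have hpw := pairwise_idx hl'
        have hpw2 : ((a :: u) ++ (x :: c :: v)).Pairwise (fun p q => l'.idxOf p < l'.idxOf q) := by
          rw [← huv]
          exact hpw
        rw [List.pairwise_append] at hpw2
        have e1 : l'.idxOf a < l'.idxOf x := hpw2.2.2 a List.mem_cons_self x List.mem_cons_self
        have e2 : l'.idxOf x < l'.idxOf c := (List.pairwise_cons.1 hpw2.2.1).1 c List.mem_cons_self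
        have ax : a ≠ x := fun e => by rw [e] at e1; omega
        have cx : c ≠ x := fun e => by rw [e] at e2; omega
        have ac : a ≠ c := fun e => by rw [e] at e1; omega
        have h1 := h a ((hm a).2 hal') x List.mem_cons_self c ((hm c).2 hcl') ax cx ac
        rw [List.idxOf_cons_self] at h1
        have h2 := (h1.1 ⟨fun t => absurd t (Nat.not_lt_zero _), fun t => absurd t (Nat.not_lt_zero _)⟩).1 e1
        omega

end Pool.Agent.SOT
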