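import Pool.Agent.SOT.PrtT
import Pool.Agent.SOT.Betw
import Pool.Agent.SOT.ArrV

/-! Project SOT, module Rot7 (size 4): with at least six children the arrangement is the one of the base order or the reversed one.
-/

set_option autoImplicit false

open Set

namespace Pool.Agent.SOT

open Pool.Agent.SOC Pool.Agent.SOD Pool.Agent.SOS Pool.Agent.SOP Pool.Agent.SOE

variable {M : Mat} {s : List (Fin M.length)}

private theorem rot7_idxMap {α β : Type} [BEq α] [LawfulBEq α] [BEq β] [LawfulBEq β] (f : α → β) (hf : Function.Injective f) (a : α) :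
    ∀ l : List α, (l.map f).idxOf (f a) = l.idxOf a
  | [] => rfl
  | b :: l => by
    rw [List.map_cons]
    by_cases h : b = a
    · subst h
      rw [List.idxOf_cons_self, List.idxOf_cons_self]
    · have h' : f b ≠ f a := fun e => h (hf e)
      rw [List.idxOf_cons_ne _ h', List.idxOf_cons_ne _ h, rot7_idxMap f hf a l]

private theorem rot7_mem (hs : IsEnum s) (K : Ivl) (v : Fin M.length) :
    v.val ∈ seg (s.map Fin.val) K ↔ K.1 ≤ s.idxOf v ∧ s.idxOf v < K.2 := by
  unfold seg
  rw [List.mem_iff_getElem?]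
  constructor
  · rintro ⟨i, hi⟩
    rw [List.getElem?_take] at hi
    split at hi
    · rename_i h1
      rw [List.getElem?_drop, List.getElem?_map, Option.map_eq_some_iff] at hi
      obtain ⟨w, hw, hwv⟩ := hi
      have e : w = v := Fin.val_injective hwv
      subst e
      obtain ⟨h2, h3⟩ := List.getElem?_eq_some_iff.1 hw
      have h4 := List.Nodup.idxOf_getElem hs.1 (K.1 + i) h2
      rw [h3] at h4
      omega
    · cases hi
  · rintro ⟨h1, h2⟩
    refine ⟨s.idxOf v - K.1, ?_⟩
    rw [List.getElem?_take, if_pos (by omega), List.getElem?_drop, List.getElem?_map,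
      show K.1 + (s.idxOf v - K.1) = s.idxOf v by omega, List.getElem?_idxOf (hs.2 v)]
    rfl

private theorem rot7_flat {s0 : Ord} {Ks : List Ivl} {Ls : List Ord}
    (h : List.Forall₂ (fun L K => L.Perm (seg s0 K)) Ls Ks) :
    (∀ K ∈ Ks, ∀ K' ∈ Ks, K ≠ K' → ∀ x ∈ seg s0 K, x ∉ seg s0 K') →
    ∀ A ∈ Ks, ∀ B ∈ Ks, ∀ a ∈ seg s0 A, ∀ b ∈ seg s0 B, Ks.idxOf A < Ks.idxOf B →
      Ls.flatten.idxOf a < Ls.flatten.idxOf b := by
  induction h with
  | nil =>
    intro _ A hA
    cases hA
  | @cons L K Ls Ks hLK h ih =>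
    intro hd A hA B hB a ha b hb hlt
    rw [List.flatten_cons]
    by_cases hAK : A = K
    · subst hAK
      have hBK : B ≠ A := by
        rintro rfl
        exact lt_irrefl _ hlt
      have haL : a ∈ L := hLK.mem_iff.2 ha
      have hbL : b ∉ L := fun h1 => hd A List.mem_cons_self B hB hBK.symm b (hLK.mem_iff.1 h1) hb
      rw [List.idxOf_append_of_mem haL, List.idxOf_append_of_notMem hbL]
      have := List.idxOf_lt_length_of_mem haL
      omega
    · have hBK : B ≠ K := by
        rintro rfl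
        rw [List.idxOf_cons_self] at hlt
        exact Nat.not_lt_zero _ hlt
      have hA' : A ∈ Ks := (List.mem_cons.1 hA).resolve_left hAK
      have hB' : B ∈ Ks := (List.mem_cons.1 hB).resolve_left hBK
      have haL : a ∉ L := fun h1 => hd A hA K List.mem_cons_self hAK a ha (hLK.mem_iff.1 h1)
      have hbL : b ∉ L := fun h1 => hd B hB K List.mem_cons_self hBK b hb (hLK.mem_iff.1 h1)
      rw [List.idxOf_append_of_notMem haL, List.idxOf_append_of_notMem hbL]
      rw [List.idxOf_cons_ne _ (Ne.symm hAK), List.idxOf_cons_ne _ (Ne.symm hBK)] at hlt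
      have := ih (fun K1 h1 K2 h2 => hd K1 (List.mem_cons_of_mem _ h1) K2 (List.mem_cons_of_mem _ h2))
        A hA' B hB' a ha b hb (by omega)
      omega

private theorem rot7_prop (a b c d : Prop) (h : ¬ (¬ c ↔ ¬ d) ↔ ¬ (a ↔ b)) : (a ↔ b) ↔ (c ↔ d) := by
  tauto

private theorem rot7_betw {β : Type} [i : BEq β] [hlaw : LawfulBEq β] {l l' : List β} (hl : l.Nodup) (hl' : l'.Nodup)
    (hm : ∀ x, x ∈ l ↔ x ∈ l')
    (h : ∀ a ∈ l, ∀ b ∈ l, ∀ c ∈ l, a ≠ b → c ≠ b → a ≠ c →
      ((l.idxOf a < l.idxOf b ↔ l.idxOf c < l.idxOf b) ↔ (l'.idxOf a < l'.idxOf b ↔ l'.idxOf c < l'.idxOf b))) :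
    l' = l ∨ l' = l.reverse := by
  obtain ⟨d⟩ : Nonempty (DecidableEq β) := ⟨Classical.decEq β⟩
  have e : i = @instBEqOfDecidableEq β d := lawful_beq_subsingleton _ _
  subst e
  exact betw hl hl' hm h

private theorem rot7_pw {α : Type} [BEq α] [LawfulBEq α] {R : α → α → Prop} {l : List α} (h : l.Pairwise R) {A B : α}
    (hA : A ∈ l) (hB : B ∈ l) (hlt : l.idxOf A < l.idxOf B) : R A B := by
  have h1 := List.idxOf_lt_length_of_mem hA
  have h2 := List.idxOf_lt_length_of_mem hB
  have h3 := List.pairwise_iff_getElem.1 h _ _ h1 h2 hlt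
  rwa [List.getElem_idxOf, List.getElem_idxOf] at h3

private theorem rot7_seg_sub {X : Ord} {K : Ivl} {y : ℕ} (h : y ∈ seg X K) : y ∈ X :=
  List.mem_of_mem_drop (List.mem_of_mem_take h)

/-- PROOF. n = 0 is impossible. v₀ := the head of s. VO: s₁ : List (Fin M.length) with s₁.map val = Ls.flatten ++ R, a SOC order. v₀ is not in Ls.flatten (its members are in seg (1, n)), so in R: R = R₁ ++ v₀ :: R₂. For every kid K let x K be the vertex at the position K.1 of the base order. betw for l := kids, l' := Ks: let A, B, C be three different kids.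
(1) In the base order: A is before B in kids iff A.1 < B.1 (kids_sort) iff x A is before x B in s. (2) Cross s v₀ (x B) (x A) (x C) iff exactly one of x A, x C is before x B in s (v₀ has index 0), iff exactly one of A, C is before B in kids. (3) Cross s₁ v₀ (x B) (x A) (x C): v₀ is behind all x K in s₁ (x K ∈ Ls.flatten), so it holds iff exactly one of x A, x C is before x B in s₁, i.e.
in Ls.flatten, iff exactly one of A, C is before B in Ks (x K is in the list L of Ls which belongs to K: by Forall₂ the index of K in Ks; prove: for Forall₂ (L.Perm (seg s0 K)) Ls Ks, A before B in Ks, x ∈ seg s0 A, y ∈ seg s0 B: x before y in Ls.flatten, by induction). (4) node_rot: Cross s₁ .. ↔ Cross s ..: v₀, x A, x B, x C are in four different parts of prt_node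
(prt_in, prt_out), there are seven parts: v₀ and six kids (an injective v : Fin 7 → Fin M.length from v₀ and the first six kids). So the betweenness is the same. (`cross` with a, b exchanged is the same.) -/
theorem rot7 (hG : PrimeG (graphOf M)) (hc : CFree (graphOf M)) (hs : EWO (graphOf M) s) (h4 : 4 ≤ M.length) {I : Ivl}
    (hI : Nod s.length (strL M (s.map Fin.val)) I) (h6 : 6 ≤ (kids s.length (strL M (s.map Fin.val)) I).length) {Ks : List Ivl}
    (hp : Ks.Perm (kids s.length (strL M (s.map Fin.val)) I)) {Ls : List Ord}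
    (hL : List.Forall₂ (fun L K => L.Perm (seg (s.map Fin.val) K)) Ls Ks) {R : Ord} (hV : VO M (Ls.flatten ++ R)) :
    Ks = kids s.length (strL M (s.map Fin.val)) I ∨ Ks = (kids s.length (strL M (s.map Fin.val)) I).reverse := by
  have hse := hs.enum
  have hlen : (s.map Fin.val).length = s.length := List.length_map _
  have hF : Lam s.length (strL M (s.map Fin.val)) := by
    have h := strL_lam (M := M) (s.map Fin.val)
    rwa [hlen] at h
  have hsl : s.length = M.length := by
    have h1 : s.toFinset = Finset.univ :=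
      Finset.eq_univ_iff_forall.2 (fun v => List.mem_toFinset.2 (hse.2 v))
    have h2 := List.toFinset_card_of_nodup hse.1
    rw [h1, Finset.card_univ, Fintype.card_fin] at h2
    exact h2.symm
  have hI1 : 1 ≤ I.1 ∧ I.1 < I.2 ∧ I.2 ≤ s.length := by
    rcases hI with h | h
    · exact ⟨hF.lo I h, by have := hF.len I h; omega, hF.hi I h⟩
    · rw [h]
      exact ⟨le_rfl, by show 1 < s.length; omega, le_rfl⟩
  have hnode : Node (graphOf M) (prt M (s.map Fin.val) (strL M (s.map Fin.val)) I) := prt_node hG hc hs h4 hI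
  have hpi : ∀ K ∈ kids s.length (strL M (s.map Fin.val)) I, ∀ u v : Fin M.length, v.val ∈ seg (s.map Fin.val) K →
      (prt M (s.map Fin.val) (strL M (s.map Fin.val)) I u = prt M (s.map Fin.val) (strL M (s.map Fin.val)) I v ↔
        u.val ∈ seg (s.map Fin.val) K) := by
    intro K hK u v hv
    have hn : (s.map Fin.val).Nodup := hse.1.map Fin.val_injective
    rw [← hlen] at hK
    exact prt_in hn hK hv
  obtain ⟨s₁, hs1, hse1, T, hT⟩ := hV
  have hkm : ∀ K ∈ kids s.length (strL M (s.map Fin.val)) I, 1 ≤ K.1 ∧ K.1 < K.2 ∧ K.2 ≤ s.length := by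
    intro K hK
    obtain ⟨-, h1, h2, h3⟩ := kids_mem hF hI1.2.1 hI1.2.2 hK
    exact ⟨by omega, h2, by omega⟩
  have hsort := kids_sort s.length (strL M (s.map Fin.val)) I
  have hnd := kids_nodup s.length (strL M (s.map Fin.val)) I
  generalize hπe : prt M (s.map Fin.val) (strL M (s.map Fin.val)) I = π at hnode hpi
  generalize kids s.length (strL M (s.map Fin.val)) I = ks at *
  have h0 : 0 < s.length := by omega
  obtain ⟨v₀, hv0⟩ : ∃ v₀, s.idxOf v₀ = 0 := ⟨s[0], List.Nodup.idxOf_getElem hse.1 0 h0⟩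
  obtain ⟨x, hx⟩ : ∃ x : Ivl → Fin M.length, ∀ K ∈ ks, s.idxOf (x K) = K.1 := by
    refine ⟨fun K => if h : K.1 < s.length then s[K.1] else v₀, fun K hK => ?_⟩
    obtain ⟨h1, h2, h3⟩ := hkm K hK
    have h4 : K.1 < s.length := by omega
    simp only [h4, dif_pos]
    exact List.Nodup.idxOf_getElem hse.1 K.1 h4
  have hxs : ∀ K ∈ ks, (x K).val ∈ seg (s.map Fin.val) K := by
    intro K hK
    rw [rot7_mem hse, hx K hK]
    exact ⟨le_rfl, (hkm K hK).2.1⟩
  have hv0s : ∀ K ∈ ks, v₀.val ∉ seg (s.map Fin.val) K := by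
    intro K hK h
    rw [rot7_mem hse, hv0] at h
    have := (hkm K hK).1
    omega
  have hcmp : ∀ A ∈ ks, ∀ B ∈ ks, A ≠ B → A.2 ≤ B.1 ∨ B.2 ≤ A.1 := by
    intro A hA B hB hAB
    rcases lt_trichotomy (ks.idxOf A) (ks.idxOf B) with h | h | h
    · exact Or.inl (rot7_pw hsort.1 hA hB h)
    · exact absurd ((List.idxOf_inj hA).1 h) hAB
    · exact Or.inr (rot7_pw hsort.1 hB hA h)
  have hkk : ∀ A ∈ ks, ∀ B ∈ ks, A ≠ B → (ks.idxOf A < ks.idxOf B ↔ A.1 < B.1) := by
    intro A hA B hB hAB
    have hA1 := (hkm A hA).2.1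
    have hB1 := (hkm B hB).2.1
    constructor
    · intro h
      have := rot7_pw hsort.1 hA hB h
      omega
    · intro h
      rcases lt_trichotomy (ks.idxOf A) (ks.idxOf B) with h' | h' | h'
      · exact h'
      · exact absurd ((List.idxOf_inj hA).1 h') hAB
      · have := rot7_pw hsort.1 hB hA h'
        omega
  have hdis : ∀ A ∈ ks, ∀ B ∈ ks, A ≠ B → ∀ y ∈ seg (s.map Fin.val) A, y ∉ seg (s.map Fin.val) B := by
    intro A hA B hB hAB y hyA hyB
    obtain ⟨v, -, rfl⟩ := List.mem_map.1 (rot7_seg_sub hyA)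
    rw [rot7_mem hse] at hyA hyB
    have := hcmp A hA B hB hAB
    omega
  have hdis' : ∀ A ∈ Ks, ∀ B ∈ Ks, A ≠ B → ∀ y ∈ seg (s.map Fin.val) A, y ∉ seg (s.map Fin.val) B :=
    fun A hA B hB => hdis A (hp.mem_iff.1 hA) B (hp.mem_iff.1 hB)
  have hidx : ∀ v : Fin M.length, s₁.idxOf v = (Ls.flatten ++ R).idxOf v.val := by
    intro v
    rw [← hs1]
    exact (rot7_idxMap Fin.val Fin.val_injective v s₁).symm
  have hKL : ∀ K ∈ Ks, ∀ y ∈ seg (s.map Fin.val) K, y ∈ Ls.flatten := by
    clear hidx hdis' hs1 hp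
    induction hL with
    | nil =>
      intro K hK
      cases hK
    | @cons L K Ls Ks hLK h ih =>
      intro K' hK' y hy
      rw [List.flatten_cons, List.mem_append]
      rcases List.mem_cons.1 hK' with rfl | hK'
      · exact Or.inl (hLK.mem_iff.2 hy)
      · exact Or.inr (ih K' hK' y hy)
  have hLK : ∀ y ∈ Ls.flatten, ∃ K ∈ Ks, y ∈ seg (s.map Fin.val) K := by
    clear hidx hdis' hs1 hp hKL
    induction hL with
    | nil =>
      intro y hy
      cases hy
    | @cons L K Ls Ks hLK h ih =>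
      intro y hy
      rw [List.flatten_cons, List.mem_append] at hy
      rcases hy with hy | hy
      · exact ⟨K, List.mem_cons_self, hLK.mem_iff.1 hy⟩
      · obtain ⟨K', h1, h2⟩ := ih y hy
        exact ⟨K', List.mem_cons_of_mem _ h1, h2⟩
  have hv0L : v₀.val ∉ Ls.flatten := by
    intro h
    obtain ⟨K, hK, h1⟩ := hLK _ h
    exact hv0s K (hp.mem_iff.1 hK) h1
  have hxL : ∀ K ∈ ks, (x K).val ∈ Ls.flatten := fun K hK => hKL K (hp.mem_iff.2 hK) _ (hxs K hK)
  have hidx1 : ∀ K ∈ ks, s₁.idxOf (x K) = Ls.flatten.idxOf (x K).val := by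
    intro K hK
    rw [hidx, List.idxOf_append_of_mem (hxL K hK)]
  have hidx0 : ∀ K ∈ ks, s₁.idxOf (x K) < s₁.idxOf v₀ := by
    intro K hK
    rw [hidx1 K hK, hidx, List.idxOf_append_of_notMem hv0L]
    have := List.idxOf_lt_length_of_mem (hxL K hK)
    omega
  have hKs1 : ∀ A ∈ ks, ∀ B ∈ ks, Ks.idxOf A < Ks.idxOf B → s₁.idxOf (x A) < s₁.idxOf (x B) := by
    intro A hA B hB h
    rw [hidx1 A hA, hidx1 B hB]
    exact rot7_flat hL hdis' A (hp.mem_iff.2 hA) B (hp.mem_iff.2 hB) _ (hxs A hA) _ (hxs B hB) h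
  have hKs : ∀ A ∈ ks, ∀ B ∈ ks, A ≠ B → (s₁.idxOf (x A) < s₁.idxOf (x B) ↔ Ks.idxOf A < Ks.idxOf B) := by
    intro A hA B hB hAB
    constructor
    · intro h
      rcases lt_trichotomy (Ks.idxOf A) (Ks.idxOf B) with h' | h' | h'
      · exact h'
      · exact absurd ((List.idxOf_inj (hp.mem_iff.2 hA)).1 h') hAB
      · have := hKs1 B hB A hA h'
        omega
    · exact hKs1 A hA B hB
  have hπx : ∀ A ∈ ks, ∀ B ∈ ks, A ≠ B → π (x A) ≠ π (x B) := by
    intro A hA B hB hAB h
    exact hdis A hA B hB hAB _ (hxs A hA) ((hpi B hB _ _ (hxs B hB)).1 h)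
  have hπ0 : ∀ A ∈ ks, π v₀ ≠ π (x A) := by
    intro A hA h
    exact hv0s A hA ((hpi A hA _ _ (hxs A hA)).1 h)
  obtain ⟨v, hv⟩ : ∃ v : Fin 7 → Fin M.length, ∀ i j, i ≠ j → π (v i) ≠ π (v j) := by
    have hg : ∀ i : ℕ, i < 6 → ∃ K ∈ ks, ks[i]? = some K := by
      intro i hi
      have h1 : i < ks.length := by omega
      exact ⟨ks[i], List.getElem_mem h1, List.getElem?_eq_getElem h1⟩
    refine ⟨fun i => if i.val = 0 then v₀ else x (ks.getD (i.val - 1) (0, 0)), ?_⟩
    have hgd : ∀ i : Fin 7, i.val ≠ 0 → ks.getD (i.val - 1) (0, 0) ∈ ks := by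
      intro i hi
      have h1 : i.val - 1 < ks.length := by have := i.2; omega
      rw [List.getD_eq_getElem _ _ h1]
      exact List.getElem_mem h1
    intro i j hij
    by_cases hi : i.val = 0
    · have hj : j.val ≠ 0 := fun hj => hij (Fin.ext (hi.trans hj.symm))
      simp only [hi, hj, if_true, if_false]
      exact hπ0 _ (hgd j hj)
    · by_cases hj : j.val = 0
      · simp only [hi, hj, if_true, if_false]
        exact (hπ0 _ (hgd i hi)).symm
      · simp only [hi, hj, if_false]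
        refine hπx _ (hgd i hi) _ (hgd j hj) ?_
        have h1 : i.val - 1 < ks.length := by have := i.2; omega
        have h2 : j.val - 1 < ks.length := by have := j.2; omega
        rw [List.getD_eq_getElem _ _ h1, List.getD_eq_getElem _ _ h2]
        intro h
        have h3 := (List.Nodup.getElem_inj_iff hnd).1 h
        apply hij
        apply Fin.ext
        omega
  refine rot7_betw hnd (hp.nodup_iff.2 hnd) (fun y => hp.mem_iff.symm) ?_
  intro A hA B hB C hC hAB hCB hAC
  have hrot := node_rot hG hc hse1 hT hs hnode hv (a := v₀) (b := x B) (c := x A) (d := x C)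
    (hπ0 B hB) (hπ0 A hA) (hπ0 C hC) (hπx B hB A hA hAB.symm) (hπx B hB C hC hCB.symm) (hπx A hA C hC hAC)
  have hb0 : ∀ D ∈ ks, D ≠ B → (SOC.Btw s v₀ (x B) (x D) ↔ ks.idxOf D < ks.idxOf B) := by
    intro D hD hDB
    rw [hkk D hD B hB hDB]
    unfold SOC.Btw
    rw [hv0, hx D hD, hx B hB]
    have := (hkm D hD).1
    omega
  have hb1 : ∀ D ∈ ks, D ≠ B → (SOC.Btw s₁ v₀ (x B) (x D) ↔ ¬ (Ks.idxOf D < Ks.idxOf B)) := by
    intro D hD hDB
    rw [← hKs D hD B hB hDB]
    unfold SOC.Btw
    have h1 := hidx0 D hD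
    have h2 := hidx0 B hB
    have h3 := hKs D hD B hB hDB
    have h5 := hKs B hB D hD hDB.symm
    have h6 : Ks.idxOf D ≠ Ks.idxOf B := fun h => hDB ((List.idxOf_inj (hp.mem_iff.2 hD)).1 h)
    omega
  unfold Cross at hrot
  rw [hb0 A hA hAB, hb0 C hC hCB, hb1 A hA hAB, hb1 C hC hCB] at hrot
  exact rot7_prop _ _ _ _ hrot

end Pool.Agent.SOT
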