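import Pool.Agent.SOE.NodeT
import Pool.Agent.SOE.TreeI
import Pool.Agent.SOE.EPoly
import Pool.Agent.SOS.AlgSor
import Pool.Agent.SOS.AlgPoly
import Pool.Agent.SOS.OrdList

/-! Project SOT (MP_66ba69_lc, dynamic program over a laminar family of intervals), module Defs.

Everything is in terms of lists of numbers: `M` is the matrix of the graph, `s0` a base order (a permutation of `range M.length`), `F` a family
of intervals `(i, j)` (positions `i, ..., j - 1`, `1 ≤ i`) of the base order which do not overlap. `VO M l`: `l` is a SOC order of the whole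
graph. The program computes for every `I ∈ F` a table: a list of orders of `seg s0 I`. A table is complete (`Cmp`) if in every SOC order
`L ++ R` of the whole graph, `L` an order of `seg s0 I`, the part `L` can be replaced by a member of the table. -/

set_option autoImplicit false

namespace Pool.Agent.SOT

open Pool.Agent.SOC Pool.Agent.SOD Pool.Agent.SOS

/-- matrices -/
abbrev Mat := List (List Bool)
/-- orders -/
abbrev Ord := List ℕ
/-- intervals -/
abbrev Ivl := ℕ × ℕ
/-- keys: number, context, word -/
abbrev Key := ℕ × List ℕ × List (List Bool)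
/-- tables -/
abbrev Tab := List (Ivl × List Ord)

/-- SOC order of the whole graph -/
def VO (M : Mat) (l : Ord) : Prop :=
  ∃ s : List (Fin M.length), s.map Fin.val = l ∧ IsEnum s ∧ ∃ T, QT (graphOf M) (Cross s) T

/-- the vertices at the positions of `I` -/
def seg (s0 : Ord) (I : Ivl) : Ord := (s0.drop I.1).take (I.2 - I.1)

/-- `p` is strictly inside a member of `F` which is a proper part of `I` -/
def hidden (F : List Ivl) (I : Ivl) (p : ℕ) : Bool :=
  F.any fun J => decide (J ≠ I) && decide (I.1 ≤ J.1) && decide (J.2 ≤ I.2) && decide (J.1 < p) && decide (p < J.2)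

/-- the boundaries of the children (`n` is the length of the base order) -/
def bds (n : ℕ) (F : List Ivl) (I : Ivl) : List ℕ :=
  (List.range (n + 1)).filter fun p => decide (I.1 ≤ p) && decide (p ≤ I.2) && !(hidden F I p)

/-- the children of `I`: maximal members of `F` properly inside `I`, and single positions -/
def kids (n : ℕ) (F : List Ivl) (I : Ivl) : List Ivl := (bds n F I).zip (bds n F I).tail

/-- the intervals overlap -/
def ovl (I J : Ivl) : Bool :=
  (decide (I.1 < J.1) && decide (J.1 < I.2) && decide (I.2 < J.2)) ||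
    (decide (J.1 < I.1) && decide (I.1 < J.2) && decide (J.2 < I.2))

/-- the table of `I` -/
def look (s0 : Ord) (acc : Tab) (I : Ivl) : List Ord :=
  if I.2 = I.1 + 1 then [seg s0 I] else (acc.filter fun p => decide (p.1 = I)).flatMap fun p => p.2

/-- the parameters: rigid nodes, keys -/
structure Par where
  rig : Mat → Ord → List Ivl → List (List Ord) → List Ord
  good : Mat → Ord → Key → Bool
  keys : Mat → List Key

/-- concatenations of five orders -/
def comb5 (A B C D E : List Ord) : List Ord :=
  A.flatMap fun a => B.flatMap fun b => C.flatMap fun c => D.flatMap fun d => E.map fun e => a ++ (b ++ (c ++ (d ++ e)))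

/-- all concatenations of at most five tables, in all orders -/
def small (Cs : List (List Ord)) : List Ord :=
  ([0, 1, 2, 3, 4] : List ℕ).permutations.flatMap fun p =>
    comb5 (Cs.getD (p.getD 0 0) [[]]) (Cs.getD (p.getD 1 0) [[]]) (Cs.getD (p.getD 2 0) [[]]) (Cs.getD (p.getD 3 0) [[]])
      (Cs.getD (p.getD 4 0) [[]])

/-- candidates for the orders of `seg s0 I` -/
def cands (P : Par) (M : Mat) (s0 : Ord) (F : List Ivl) (acc : Tab) (I : Ivl) : List Ord :=
  if (kids s0.length F I).length ≤ 5 then small ((kids s0.length F I).map (look s0 acc))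
  else P.rig M s0 (kids s0.length F I) ((kids s0.length F I).map (look s0 acc))

/-- `L` is an order of the members of `S` -/
def permB (L S : Ord) : Bool := decide (L.length = S.length) && (S.all fun x => decide (x ∈ L)) && L.all fun x => decide (x ∈ S)

/-- one candidate for every key -/
def red (P : Par) (M : Mat) (C : List Ord) : List Ord :=
  (P.keys M).flatMap fun k => (C.filter fun L => P.good M L k).take 1

/-- closure under reversal -/
def clo (C : List Ord) : List Ord := C ++ C.map List.reverse

/-- the new table of `I` -/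
def node (P : Par) (M : Mat) (s0 : Ord) (F : List Ivl) (acc : Tab) (I : Ivl) : List Ord :=
  clo (red P M ((cands P M s0 F acc I).filter fun L => permB L (seg s0 I)))

/-- one round -/
def rnd (P : Par) (M : Mat) (s0 : Ord) (F : List Ivl) (acc : Tab) : Tab := F.map fun I => (I, node P M s0 F acc I)

/-- the tables after `k` rounds -/
def tabs (P : Par) (M : Mat) (s0 : Ord) (F : List Ivl) (k : ℕ) : Tab := (rnd P M s0 F)^[k] []

/-- the final test -/
def solve (P : Par) (tok : Mat → Ord → Bool) (M : Mat) (s0 : Ord) (F : List Ivl) : Bool :=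
  (cands P M s0 F (tabs P M s0 F s0.length) (1, s0.length)).any fun L =>
    permB (s0.take 1 ++ L) s0 && tok M (s0.take 1 ++ L)

/-- the algorithm -/
def primeD (P : Par) (tok : Mat → Ord → Bool) (base : Mat → Option Ord) (fam : Mat → Ord → List Ivl) (M : Mat) : Bool :=
  match base M with
  | none => false
  | some s0 => solve P tok M s0 (fam M s0)

/-- `S` is an interval of the cyclic order `l` -/
def Cyc (l S : Ord) : Prop := ∃ u v w, l = u ++ (v ++ w) ∧ (v.Perm S ∨ (w ++ u).Perm S)

/-- laminar family of intervals of `1, ..., n - 1` -/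
structure Lam (n : ℕ) (F : List Ivl) : Prop where
  lo : ∀ I ∈ F, 1 ≤ I.1
  len : ∀ I ∈ F, I.1 + 2 ≤ I.2
  hi : ∀ I ∈ F, I.2 ≤ n
  lam : ∀ I ∈ F, ∀ J ∈ F, ovl I J = false

/-- `I` is a member of the family or the whole -/
def Nod (n : ℕ) (F : List Ivl) (I : Ivl) : Prop := I ∈ F ∨ I = (1, n)

/-- the table `C` is complete for `S` -/
def Cmp (M : Mat) (C : List Ord) (S : Ord) : Prop :=
  ∀ L R : Ord, L.Perm S → VO M (L ++ R) → ∃ L' ∈ C, VO M (L' ++ R)

/-- the hypotheses on the parameters -/
structure Hyp (P : Par) (M : Mat) (s0 : Ord) (F : List Ivl) : Prop where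
  base : s0.Perm (List.range M.length)
  four : 4 ≤ M.length
  fam : Lam s0.length F
  int : ∀ l, VO M l → ∀ I ∈ F, Cyc l (seg s0 I)
  rep : ∀ I ∈ F, ∀ L R : Ord, L.Perm (seg s0 I) → VO M (L ++ R) →
    ∃ k ∈ P.keys M, P.good M L k = true ∧ ∀ L' : Ord, L'.Perm L → P.good M L' k = true → VO M (L' ++ R)
  rig : ∀ I, Nod s0.length F I → 6 ≤ (kids s0.length F I).length → ∀ C : Ivl → List Ord,
    (∀ K ∈ kids s0.length F I, ∀ L ∈ C K, L.Perm (seg s0 K) ∧ L.reverse ∈ C K) →
    ∀ Ks : List Ivl, Ks.Perm (kids s0.length F I) → ∀ Ls : List Ord, List.Forall₂ (fun L K => L ∈ C K) Ls Ks →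
      ∀ R, VO M (Ls.flatten ++ R) → ∃ L ∈ P.rig M s0 (kids s0.length F I) ((kids s0.length F I).map C), VO M (L ++ R)

end Pool.Agent.SOT
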