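import Pool.Agent.SOT.Defs2

/-! Project SOT, module Epc (size 2): the test for E-P-cuts.
-/

set_option autoImplicit false

open Set

namespace Pool.Agent.SOT

open Pool.Agent.SOC Pool.Agent.SOD Pool.Agent.SOS Pool.Agent.SOP Pool.Agent.SOE

theorem epc_spl {M : Mat} {X : Ord} {a b c d : Fin M.length} :
    splB X a b c d = true ↔ Spl (setW M X) a b c d := by
  have key : ∀ x y : Fin M.length, xor (decide (x.val ∈ X)) (decide (y.val ∈ X)) = true ↔
      ¬ (x ∈ setW M X ↔ y ∈ setW M X) := by
    intro x y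
    have hx : x ∈ setW M X ↔ x.val ∈ X := Iff.rfl
    have hy : y ∈ setW M X ↔ y.val ∈ X := Iff.rfl
    rw [hx, hy]
    by_cases h1 : x.val ∈ X <;> by_cases h2 : y.val ∈ X <;> simp [h1, h2]
  unfold splB Spl
  rw [Bool.and_eq_true, key, key]

open Pool.Agent.SOW in
theorem epc_all {M : Mat} {X : Ord} : epcB M X = true ↔ ∀ a b c d : Fin M.length,
    (Rigid (graphOf M) a b c d ∨ ∃ r, W4 (graphOf M) a b c d r) → ¬ Spl (setW M X) a b c d := by
  unfold epcB
  simp only [List.all_eq_true, List.mem_range]
  constructor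
  · intro h a b c d hr hs
    have h1 := h a a.2 b b.2 c c.2 d d.2
    have h2 : (rigidB M a b c d || w4B M a b c d) = true := by
      rw [Bool.or_eq_true]
      rcases hr with hr | hr
      · exact Or.inl (rigidB_iff.2 hr)
      · exact Or.inr (w4B_iff.2 hr)
    rw [h2, epc_spl.2 hs] at h1
    exact absurd h1 (by decide)
  · intro h a ha b hb c hc d hd
    have h1 := h ⟨a, ha⟩ ⟨b, hb⟩ ⟨c, hc⟩ ⟨d, hd⟩
    rw [Bool.not_eq_true', Bool.eq_false_iff]
    intro h2
    rw [Bool.and_eq_true, Bool.or_eq_true] at h2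
    refine h1 ?_ (epc_spl.1 h2.2)
    rcases h2.1 with h3 | h3
    · exact Or.inl (rigidB_iff.1 h3)
    · exact Or.inr ((w4B_iff (a := ⟨a, ha⟩) (b := ⟨b, hb⟩) (c := ⟨c, hc⟩) (d := ⟨d, hd⟩)).1 h3)

/-- PROOF. rigidB_iff (rigidB is Rigid (graphOf M), see SOC/Algo*.lean), w4B_iff; splB is Spl for the set setW M X. The quantifiers over List.range are quantifiers over Fin M.length. (→) cut: Rigid G x y x' y' with x, x' ∈ X, y, y' ∉ X: Spl. (←) a rigid pair split by X: exchange a, b or c, d (Rigid is symmetric: see Rigid.symm.. / swap lemmas in SOC) so that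
a, c ∈ X, b, d ∉ X. -/
theorem epcB_iff {M : Mat} {X : Ord} : epcB M X = true ↔ EPC (graphOf M) (setW M X) := by
  rw [epc_all]
  constructor
  · intro h
    refine ⟨?_, ?_⟩
    · intro x hx x' hx' y hy y' hy' hr
      refine h x y x' y' (Or.inl hr) ⟨?_, ?_⟩
      · intro hh
        exact hy (hh.mp hx)
      · intro hh
        exact hy' (hh.mp hx')
    · intro p p' q q' r hw
      exact h p p' q q' (Or.inr ⟨r, hw⟩)
  · intro h a b c d hr hs
    rcases hr with hr | ⟨r, hr⟩
    · obtain ⟨h1, h2⟩ := hs
      by_cases ha : a ∈ setW M X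
      · have hb : b ∉ setW M X := fun hb => h1 ⟨fun _ => hb, fun _ => ha⟩
        by_cases hc : c ∈ setW M X
        · have hd : d ∉ setW M X := fun hd => h2 ⟨fun _ => hd, fun _ => hc⟩
          exact h.cut a ha c hc b hb d hd hr
        · have hd : d ∈ setW M X := by
            by_contra hd
            exact h2 ⟨fun h' => absurd h' hc, fun h' => absurd h' hd⟩
          exact h.cut a ha d hd b hb c hc hr.swap'
      · have hb : b ∈ setW M X := by
          by_contra hb
          exact h1 ⟨fun h' => absurd h' ha, fun h' => absurd h' hb⟩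
        by_cases hc : c ∈ setW M X
        · have hd : d ∉ setW M X := fun hd => h2 ⟨fun _ => hd, fun _ => hc⟩
          exact h.cut b hb c hc a ha d hd hr.swap
        · have hd : d ∈ setW M X := by
            by_contra hd
            exact h2 ⟨fun h' => absurd h' hc, fun h' => absurd h' hd⟩
          exact h.cut b hb d hd a ha c hc hr.swap.swap'
    · exact h.w4 hr hs

end Pool.Agent.SOT
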