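import Pool.Agent.SOT.Defs

/-! Project SOT, module PolA (size 3): polynomial time, part A (see SOC/AlgoPoly.lean and SOS/AlgPoly.lean for similar proofs; the rules are in PolyTime/*.lean; fun_prop).
-/

set_option autoImplicit false

namespace Pool.Agent.SOT

open Pool.Agent.SOC Pool.Agent.SOD Pool.Agent.SOS

open FP

/-- the parameters are computable in polynomial time -/
structure PPar (P : Par) : Prop where
  rig : Poly (fun x : Mat × Ord × List Ivl × List (List Ord) => P.rig x.1 x.2.1 x.2.2.1 x.2.2.2)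
  good : Poly (fun x : Mat × Ord × Key => P.good x.1 x.2.1 x.2.2)
  keys : Poly P.keys

section
variable {α : Type} [Code α]

/-- PROOF: Poly.take, Poly.drop, Poly.sub. -/
theorem poly_seg {s0 : α → Ord} {I : α → Ivl} (hs : Poly s0) (hI : Poly I) : Poly (fun a => seg (s0 a) (I a)) := by
  unfold seg
  have h1 : Poly (fun a => (s0 a).drop (I a).1) := Poly.drop (by fun_prop) hs
  exact Poly.take (by fun_prop) h1

/-- auxiliary -/
theorem PolA_hidden {F : α → List Ivl} {I : α → Ivl} {p : α → ℕ} (hF : Poly F) (hI : Poly I) (hp : Poly p) :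
    Poly (fun a => hidden (F a) (I a) (p a)) := by
  unfold hidden
  refine Poly.any (f := F) (g := fun a J => decide (J ≠ I a) && decide ((I a).1 ≤ J.1) && decide (J.2 ≤ (I a).2) &&
    decide (J.1 < p a) && decide (p a < J.2)) hF ?_
  have h0 : Poly (fun q : α × Ivl => decide (q.2 ≠ I q.1)) := by fun_prop
  have h1 : Poly (fun q : α × Ivl => decide ((I q.1).1 ≤ q.2.1)) := Poly.decideLe (by fun_prop) (by fun_prop)
  have h2 : Poly (fun q : α × Ivl => decide (q.2.2 ≤ (I q.1).2)) := Poly.decideLe (by fun_prop) (by fun_prop)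
  have h3 : Poly (fun q : α × Ivl => decide (q.2.1 < p q.1)) := Poly.decideLt (by fun_prop) (by fun_prop)
  have h4 : Poly (fun q : α × Ivl => decide (p q.1 < q.2.2)) := Poly.decideLt (by fun_prop) (by fun_prop)
  exact Poly.and (Poly.and (Poly.and (Poly.and h0 h1) h2) h3) h4

/-- auxiliary -/
theorem PolA_bds {n : α → ℕ} {F : α → List Ivl} {I : α → Ivl} (hn : Poly n) (hb : PolyBdd n) (hF : Poly F) (hI : Poly I) :
    Poly (fun a => bds (n a) (F a) (I a)) := by
  unfold bds
  have hr : Poly (fun a => List.range (n a + 1)) := Poly.range (by fun_prop) (PolyBdd.add hb (PolyBdd.const 1))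
  refine Poly.filter (f := fun a => List.range (n a + 1)) (g := fun a p => decide ((I a).1 ≤ p) && decide (p ≤ (I a).2) &&
    !(hidden (F a) (I a) p)) hr ?_
  have h1 : Poly (fun q : α × ℕ => decide ((I q.1).1 ≤ q.2)) := Poly.decideLe (by fun_prop) (by fun_prop)
  have h2 : Poly (fun q : α × ℕ => decide (q.2 ≤ (I q.1).2)) := Poly.decideLe (by fun_prop) (by fun_prop)
  have h3 : Poly (fun q : α × ℕ => hidden (F q.1) (I q.1) q.2) := PolA_hidden (by fun_prop) (by fun_prop) (by fun_prop)
  exact Poly.and (Poly.and h1 h2) (Poly.not h3)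

/-- PROOF: Poly.range, Poly.filter, Poly.any, Poly.zip, Poly.listTail. -/
theorem poly_kids {n : α → ℕ} {F : α → List Ivl} {I : α → Ivl} (hn : Poly n) (hb : PolyBdd n) (hF : Poly F) (hI : Poly I) :
    Poly (fun a => kids (n a) (F a) (I a)) := by
  unfold kids
  exact Poly.zip (PolA_bds hn hb hF hI) (Poly.listTail (PolA_bds hn hb hF hI))

/-- PROOF: Poly.ite, Poly.filter, Poly.flatMap. -/
theorem poly_look {s0 : α → Ord} {acc : α → Tab} {I : α → Ivl} (hs : Poly s0) (ha : Poly acc) (hI : Poly I) :
    Poly (fun a => look (s0 a) (acc a) (I a)) := by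
  unfold look
  refine Poly.ite (PolyPred.eq (by fun_prop) (by fun_prop)) ?_ ?_
  · exact Poly.cons (poly_seg hs hI) (FP.Poly.const [])
  · refine Poly.flatMap (f := fun a => (acc a).filter fun p => decide (p.1 = I a))
      (g := fun (_ : α) (p : Ivl × List Ord) => p.2) ?_ (by fun_prop)
    exact Poly.filter (f := acc) (g := fun a (p : Ivl × List Ord) => decide (p.1 = I a)) ha (by fun_prop)

/-- PROOF: Poly.flatMap, Poly.map, Poly.append. -/
theorem poly_comb5 {A B C D E : α → List Ord} (hA : Poly A) (hB : Poly B) (hC : Poly C) (hD : Poly D) (hE : Poly E) :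
    Poly (fun a => comb5 (A a) (B a) (C a) (D a) (E a)) := by
  unfold comb5
  refine Poly.flatMap (f := A) (g := fun p a => (B p).flatMap fun b => (C p).flatMap fun c => (D p).flatMap fun d =>
    (E p).map fun e => a ++ (b ++ (c ++ (d ++ e)))) hA ?_
  refine Poly.flatMap (f := fun q : α × Ord => B q.1) (g := fun (q : α × Ord) b => (C q.1).flatMap fun c =>
    (D q.1).flatMap fun d => (E q.1).map fun e => q.2 ++ (b ++ (c ++ (d ++ e)))) (by fun_prop) ?_
  refine Poly.flatMap (f := fun q : (α × Ord) × Ord => C q.1.1) (g := fun (q : (α × Ord) × Ord) c =>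
    (D q.1.1).flatMap fun d => (E q.1.1).map fun e => q.1.2 ++ (q.2 ++ (c ++ (d ++ e)))) (by fun_prop) ?_
  refine Poly.flatMap (f := fun q : ((α × Ord) × Ord) × Ord => D q.1.1.1) (g := fun (q : ((α × Ord) × Ord) × Ord) d =>
    (E q.1.1.1).map fun e => q.1.1.2 ++ (q.1.2 ++ (q.2 ++ (d ++ e)))) (by fun_prop) ?_
  refine FP.Poly.map (f := fun q : (((α × Ord) × Ord) × Ord) × Ord => E q.1.1.1.1)
    (g := fun (q : (((α × Ord) × Ord) × Ord) × Ord) e => q.1.1.1.2 ++ (q.1.1.2 ++ (q.1.2 ++ (q.2 ++ e)))) (by fun_prop) ?_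
  fun_prop

/-- PROOF: Poly.flatMap over the constant list of permutations, Poly.getD, poly_comb5. -/
theorem poly_small {Cs : α → List (List Ord)} (h : Poly Cs) : Poly (fun a => small (Cs a)) := by
  unfold small
  refine Poly.flatMap (f := fun _ : α => ([0, 1, 2, 3, 4] : List ℕ).permutations)
    (g := fun a p => comb5 ((Cs a).getD (p.getD 0 0) [[]]) ((Cs a).getD (p.getD 1 0) [[]]) ((Cs a).getD (p.getD 2 0) [[]])
      ((Cs a).getD (p.getD 3 0) [[]]) ((Cs a).getD (p.getD 4 0) [[]])) (FP.Poly.const _) ?_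
  have hg : ∀ k : ℕ, Poly (fun q : α × List ℕ => (Cs q.1).getD (q.2.getD k 0) [[]]) := fun k =>
    Poly.getD (f := fun q : α × List ℕ => Cs q.1) (g := fun q : α × List ℕ => q.2.getD k 0)
      (h := fun _ : α × List ℕ => ([[]] : List Ord)) (by fun_prop)
      (Poly.getD (f := fun q : α × List ℕ => q.2) (g := fun _ : α × List ℕ => k) (h := fun _ : α × List ℕ => 0)
        (by fun_prop) (by fun_prop) (by fun_prop)) (FP.Poly.const _)
  exact poly_comb5 (hg 0) (hg 1) (hg 2) (hg 3) (hg 4)

theorem poly_permB {L S : α → Ord} (hL : Poly L) (hS : Poly S) : Poly (fun a => permB (L a) (S a)) := by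
  unfold permB
  have h1 : Poly (fun a => (S a).all fun x => decide (x ∈ L a)) :=
    Poly.all (f := S) (g := fun a x => decide (x ∈ L a)) hS (Poly.decideMem (by fun_prop) (by fun_prop))
  have h2 : Poly (fun a => (L a).all fun x => decide (x ∈ S a)) :=
    Poly.all (f := L) (g := fun a x => decide (x ∈ S a)) hL (Poly.decideMem (by fun_prop) (by fun_prop))
  have h3 : Poly (fun a => decide ((L a).length = (S a).length)) := by fun_prop
  exact Poly.and (Poly.and h3 h1) h2

theorem poly_clo {C : α → List Ord} (h : Poly C) : Poly (fun a => clo (C a)) := by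
  unfold clo
  exact Poly.append h (FP.Poly.map (f := C) (g := fun (_ : α) (l : Ord) => l.reverse) h (by fun_prop))

/-- PROOF: poly_kids with n := s0.length, Poly.ite, Poly.map with poly_look, poly_small, hP.rig. -/
theorem poly_cands {P : Par} (hP : PPar P) {M : α → Mat} {s0 : α → Ord} {F : α → List Ivl} {acc : α → Tab} {I : α → Ivl}
    (hM : Poly M) (hs : Poly s0) (hF : Poly F) (ha : Poly acc) (hI : Poly I) :
    Poly (fun a => cands P (M a) (s0 a) (F a) (acc a) (I a)) := by
  unfold cands
  have hk : Poly (fun a => kids (s0 a).length (F a) (I a)) :=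
    poly_kids (by fun_prop) (PolyBdd.length hs) hF hI
  have hl : Poly (fun a => (kids (s0 a).length (F a) (I a)).map (look (s0 a) (acc a))) := by
    refine FP.Poly.map (f := fun a => kids (s0 a).length (F a) (I a)) (g := fun a K => look (s0 a) (acc a) K) hk ?_
    exact poly_look (by fun_prop) (by fun_prop) (by fun_prop)
  refine Poly.ite (PolyPred.le (Poly.length hk) (by fun_prop)) (poly_small hl) ?_
  exact hP.rig.comp (f := fun a => (M a, s0 a, kids (s0 a).length (F a) (I a),
    (kids (s0 a).length (F a) (I a)).map (look (s0 a) (acc a)))) (Poly.pair hM (Poly.pair hs (Poly.pair hk hl)))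

/-- PROOF: poly_cands, poly_permB, hP.good, hP.keys, Poly.take, poly_clo. -/
theorem poly_node {P : Par} (hP : PPar P) {M : α → Mat} {s0 : α → Ord} {F : α → List Ivl} {acc : α → Tab} {I : α → Ivl}
    (hM : Poly M) (hs : Poly s0) (hF : Poly F) (ha : Poly acc) (hI : Poly I) :
    Poly (fun a => node P (M a) (s0 a) (F a) (acc a) (I a)) := by
  unfold node red
  have hc := poly_cands hP hM hs hF ha hI
  have hf : Poly (fun a => (cands P (M a) (s0 a) (F a) (acc a) (I a)).filter fun L => permB L (seg (s0 a) (I a))) := by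
    refine Poly.filter (f := fun a => cands P (M a) (s0 a) (F a) (acc a) (I a))
      (g := fun a L => permB L (seg (s0 a) (I a))) hc ?_
    exact poly_permB (by fun_prop) (poly_seg (by fun_prop) (by fun_prop))
  refine poly_clo ?_
  refine Poly.flatMap (f := fun a => P.keys (M a)) (g := fun a k =>
    (((cands P (M a) (s0 a) (F a) (acc a) (I a)).filter fun L => permB L (seg (s0 a) (I a))).filter
      fun L => P.good (M a) L k).take 1) (hP.keys.comp hM) ?_
  refine Poly.take (by fun_prop) ?_
  refine Poly.filter (f := fun q : α × Key => (cands P (M q.1) (s0 q.1) (F q.1) (acc q.1) (I q.1)).filter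
      fun L => permB L (seg (s0 q.1) (I q.1))) (g := fun (q : α × Key) L => P.good (M q.1) L q.2) (hf.comp Poly.fst') ?_
  exact hP.good.comp (f := fun r : (α × Key) × Ord => (M r.1.1, r.2, r.1.2)) (by fun_prop)

end

end Pool.Agent.SOT
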