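import Pool.Agent.SOT.StrT
import Pool.Agent.SOT.Kid

/-! Project SOT, module PrtT (size 3): the parts at an interval of the family form a node.
-/

set_option autoImplicit false

open Set

namespace Pool.Agent.SOT

open Pool.Agent.SOC Pool.Agent.SOD Pool.Agent.SOS Pool.Agent.SOP Pool.Agent.SOE

variable {M : Mat} {s : List (Fin M.length)}

theorem prt_seg {s0 : Ord} {I : Ivl} {x : ℕ} : x ∈ seg s0 I ↔ ∃ i, I.1 ≤ i ∧ i < I.2 ∧ s0[i]? = some x := by
  unfold seg
  rw [List.mem_iff_getElem?]
  constructor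
  · rintro ⟨i, hi⟩
    rw [List.getElem?_take] at hi
    split at hi
    · rw [List.getElem?_drop] at hi
      exact ⟨I.1 + i, by omega, by omega, hi⟩
    · cases hi
  · rintro ⟨i, h1, h2, h3⟩
    refine ⟨i - I.1, ?_⟩
    rw [List.getElem?_take, if_pos (by omega), List.getElem?_drop]
    rw [show I.1 + (i - I.1) = i by omega]
    exact h3

theorem prt_pos {s0 : Ord} (hn : s0.Nodup) {i j : ℕ} {x : ℕ} (h1 : s0[i]? = some x) (h2 : s0[j]? = some x) : i = j := by
  obtain ⟨hi, e1⟩ := List.getElem?_eq_some_iff.1 h1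
  obtain ⟨hj, e2⟩ := List.getElem?_eq_some_iff.1 h2
  exact (hn.getElem_inj_iff).1 (e1.trans e2.symm)

theorem prt_len (hs : IsEnum s) : s.length = M.length := by
  have h1 : s.toFinset = Finset.univ := Finset.eq_univ_iff_forall.2 fun v => List.mem_toFinset.2 (hs.2 v)
  have h2 := List.toFinset_card_of_nodup hs.1
  rw [h1, Finset.card_univ, Fintype.card_fin] at h2
  exact h2.symm

theorem prt_nod (hs : IsEnum s) : (s.map Fin.val).Nodup := hs.1.map Fin.val_injective

theorem prt_mem (hs : IsEnum s) (v : Fin M.length) : v ∈ s := hs.2 v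

theorem prt_eq {s0 : Ord} {F : List Ivl} {I : Ivl} {u v : Fin M.length} :
    prt M s0 F I u = prt M s0 F I v ↔ ∀ K ∈ kids s0.length F I, (u.val ∈ seg s0 K ↔ v.val ∈ seg s0 K) := by
  constructor
  · intro h
    have h1 : u ∈ prt M s0 F I u := fun K hK => Iff.rfl
    rw [h] at h1
    exact h1
  · intro h
    ext w
    constructor
    · intro hw K hK
      exact (hw K hK).trans (h K hK)
    · intro hw K hK
      exact (hw K hK).trans (h K hK).symm

/-- PROOF. The segments of the kids are disjoint (kids_sort, positions) with union seg s0 I (kids_flat). -/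
theorem prt_in {s0 : Ord} (hn : s0.Nodup) {F : List Ivl} {I K : Ivl} (hK : K ∈ kids s0.length F I) {u v : Fin M.length}
    (hv : v.val ∈ seg s0 K) : prt M s0 F I u = prt M s0 F I v ↔ u.val ∈ seg s0 K := by
  rw [prt_eq]
  constructor
  · intro h
    exact (h K hK).2 hv
  · intro hu K' hK'
    obtain ⟨hs1, hs2⟩ := kids_sort s0.length F I
    have key : ∀ w : ℕ, w ∈ seg s0 K → w ∈ seg s0 K' → K' = K := by
      intro w h1 h2
      obtain ⟨i, a1, a2, a3⟩ := prt_seg.1 h1
      obtain ⟨j, b1, b2, b3⟩ := prt_seg.1 h2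
      have e := prt_pos hn a3 b3
      subst e
      by_contra hne
      have hs3 : (kids s0.length F I).Pairwise (fun K K' => K.2 ≤ K'.1 ∨ K'.2 ≤ K.1) := hs1.imp (fun h => Or.inl h)
      have hsy : Std.Symm (fun K K' : Ivl => K.2 ≤ K'.1 ∨ K'.2 ≤ K.1) := ⟨fun a b hab => Or.symm hab⟩
      have hs4 : K'.2 ≤ K.1 ∨ K.2 ≤ K'.1 := hs3.forall hK' hK hne
      omega
    by_cases e : K' = K
    · subst e
      exact ⟨fun _ => hv, fun _ => hu⟩
    · exact ⟨fun h => absurd (key _ hu h) e, fun h => absurd (key _ hv h) e⟩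

/-- PROOF: u is in the same kids as v (in none) iff u is not in seg s0 I. -/
theorem prt_out {s0 : Ord} {F : List Ivl} (hF : Lam s0.length F) {I : Ivl} (h1 : I.1 < I.2) (h2 : I.2 ≤ s0.length) {u v : Fin M.length}
    (hv : v.val ∉ seg s0 I) : prt M s0 F I u = prt M s0 F I v ↔ u.val ∉ seg s0 I := by
  have key : ∀ w : ℕ, w ∉ seg s0 I ↔ ∀ K ∈ kids s0.length F I, w ∉ seg s0 K := by
    intro w
    rw [← kids_flat s0 hF h1 h2]
    simp only [List.mem_flatten, List.mem_map]
    constructor
    · intro h K hK hw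
      exact h ⟨_, ⟨K, hK, rfl⟩, hw⟩
    · rintro h ⟨_, ⟨K, hK, rfl⟩, hw⟩
      exact h K hK hw
  rw [prt_eq, key]
  rw [key] at hv
  constructor
  · intro h K hK hu
    exact hv K hK ((h K hK).1 hu)
  · intro h K hK
    exact ⟨fun hu => absurd hu (h K hK), fun hu => absurd hu (hv K hK)⟩

/-- PROOF. part: v in a kid K (v.val ∈ seg s0 K): K.2 = K.1 + 1: one element; otherwise K ∈ F: prt_in and str_mem. v in no kid: v.val ∉ seg s0 I: prt_out; I ∈ F: complement of a strong one (StrE.compl); I = (1, n): only the head of s. max: X strong; if the head of s is in X use the complement (StrE.compl and exchange the two alternatives), so X = seg J, J ∈ F (str_ex). I ∈ F or I = (1, n):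
by lam (or because I = (1, n) contains everything but the head) J and I are disjoint, or J ⊆ I, or I ⊆ J. Disjoint: X is inside the outer part. I ⊆ J: the complement of X is inside the outer part. J ⊊ I: kids_max: inside a kid. (J = I is contained in the case I ⊆ J.) An outer vertex exists: the head v₀. -/
theorem prt_node (hG : PrimeG (graphOf M)) (hc : CFree (graphOf M)) (hs : EWO (graphOf M) s) {I : Ivl}
    (h4 : 4 ≤ M.length) (hI : Nod s.length (strL M (s.map Fin.val)) I) : Node (graphOf M) (prt M (s.map Fin.val) (strL M (s.map Fin.val)) I) := by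
  have hlen : s.length = M.length := prt_len hs.enum
  have hnod : (s.map Fin.val).Nodup := prt_nod hs.enum
  have hF : Lam (s.map Fin.val).length (strL M (s.map Fin.val)) := strL_lam _
  have hl0 : (s.map Fin.val).length = s.length := List.length_map _
  obtain ⟨v₀, t, e⟩ : ∃ v₀ t, s = v₀ :: t := by
    cases hst : s with
    | nil => rw [hst] at hlen; simp at hlen; omega
    | cons a b => exact ⟨a, b, rfl⟩
  have hz : (s.map Fin.val)[0]? = some v₀.val := by rw [e]; rfl
  have hI1 : 1 ≤ I.1 ∧ I.1 < I.2 ∧ I.2 ≤ (s.map Fin.val).length := by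
    rcases hI with h | h
    · have a1 := hF.lo I h
      have a2 := hF.len I h
      have a3 := hF.hi I h
      exact ⟨a1, by omega, a3⟩
    · subst h
      exact ⟨le_refl _, by show 1 < s.length; omega, by rw [hl0]⟩
  obtain ⟨hI1, hI2, hI3⟩ := hI1
  have hmem : ∀ v : Fin M.length, ∃ i, i < s.length ∧ (s.map Fin.val)[i]? = some v.val := by
    intro v
    have h : v.val ∈ s.map Fin.val := List.mem_map_of_mem (prt_mem hs.enum v)
    obtain ⟨i, hi⟩ := List.mem_iff_getElem?.1 h
    obtain ⟨hi', _⟩ := List.getElem?_eq_some_iff.1 hi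
    exact ⟨i, by omega, hi⟩
  have h0I : v₀.val ∉ seg (s.map Fin.val) I := by
    intro h
    obtain ⟨i, a1, a2, a3⟩ := prt_seg.1 h
    have := prt_pos hnod a3 hz
    omega
  have hout := fun (u : Fin M.length) => prt_out (M := M) (s0 := s.map Fin.val) hF hI2 hI3 (u := u) (v := v₀) h0I
  have hcore : ∀ X, StrE (graphOf M) X → v₀ ∉ X →
      (∃ v, ∀ x ∈ X, prt M (s.map Fin.val) (strL M (s.map Fin.val)) I x = prt M (s.map Fin.val) (strL M (s.map Fin.val)) I v) ∨
      (∃ v, ∀ x, x ∉ X → prt M (s.map Fin.val) (strL M (s.map Fin.val)) I x = prt M (s.map Fin.val) (strL M (s.map Fin.val)) I v) := by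
    intro X hX h0
    obtain ⟨J, hJ, rfl⟩ := str_ex hG hc hs e hX h0
    have b1 := hF.lo J hJ
    have b2 := hF.len J hJ
    have b3 := hF.hi J hJ
    have hcase : (I.2 ≤ J.1 ∨ J.2 ≤ I.1) ∨ (J.1 ≤ I.1 ∧ I.2 ≤ J.2) ∨ (J ≠ I ∧ I.1 ≤ J.1 ∧ J.2 ≤ I.2) := by
      by_cases hJI : J = I
      · right; left
        subst hJI
        exact ⟨le_refl _, le_refl _⟩
      rcases hI with h | h
      · have hl := hF.lam I h J hJ
        unfold ovl at hl
        simp only [Bool.or_eq_false_iff, Bool.and_eq_false_iff, decide_eq_false_iff_not] at hl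
        have hl' : (I.2 ≤ J.1 ∨ J.2 ≤ I.1) ∨ (J.1 ≤ I.1 ∧ I.2 ≤ J.2) ∨ (I.1 ≤ J.1 ∧ J.2 ≤ I.2) := by omega
        rcases hl' with h1 | h1 | h1
        · exact Or.inl h1
        · exact Or.inr (Or.inl h1)
        · exact Or.inr (Or.inr ⟨hJI, h1⟩)
      · right; right
        refine ⟨hJI, ?_, ?_⟩
        · rw [h]; exact b1
        · rw [h]; show J.2 ≤ s.length; omega
    rcases hcase with h | ⟨c1, c2⟩ | ⟨c0, c1, c2⟩
    · left
      refine ⟨v₀, fun x hx => (hout x).2 ?_⟩
      intro hx'
      obtain ⟨i, a1, a2, a3⟩ := prt_seg.1 (show x.val ∈ seg (s.map Fin.val) J from hx)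
      obtain ⟨j, d1, d2, d3⟩ := prt_seg.1 hx'
      have := prt_pos hnod a3 d3
      omega
    · right
      refine ⟨v₀, fun x hx => (hout x).2 ?_⟩
      intro hx'
      apply hx
      obtain ⟨j, d1, d2, d3⟩ := prt_seg.1 hx'
      exact prt_seg.2 ⟨j, by omega, by omega, d3⟩
    · left
      obtain ⟨K, hK, k1, k2⟩ := kids_max hF hI2 hI3 hJ c0 c1 c2
      have hJp : J.1 < s.length := by omega
      refine ⟨s[J.1], fun x hx => (prt_in hnod hK (v := s[J.1]) ?_).2 ?_⟩
      · refine prt_seg.2 ⟨J.1, k1, by omega, ?_⟩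
        rw [List.getElem?_map, List.getElem?_eq_getElem hJp]
        rfl
      · obtain ⟨i, a1, a2, a3⟩ := prt_seg.1 (show x.val ∈ seg (s.map Fin.val) J from hx)
        exact prt_seg.2 ⟨i, by omega, by omega, a3⟩
  refine ⟨?_, ?_⟩
  · intro v
    by_cases hv : v.val ∈ seg (s.map Fin.val) I
    · have hv' := hv
      rw [← kids_flat (s.map Fin.val) hF hI2 hI3] at hv'
      simp only [List.mem_flatten, List.mem_map] at hv'
      obtain ⟨_, ⟨K, hK, rfl⟩, hvK⟩ := hv'
      obtain ⟨hk, hk1, hk2, hk3⟩ := kids_mem hF hI2 hI3 hK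
      rcases hk with hk | ⟨hk, -⟩
      · left
        intro u hu
        have hu' := (prt_in hnod hK hvK).1 hu
        obtain ⟨i, a1, a2, a3⟩ := prt_seg.1 hvK
        obtain ⟨j, d1, d2, d3⟩ := prt_seg.1 hu'
        have e1 : i = j := by omega
        subst e1
        rw [a3] at d3
        exact Fin.ext (Option.some.inj d3).symm
      · right
        have e1 : {u | prt M (s.map Fin.val) (strL M (s.map Fin.val)) I u = prt M (s.map Fin.val) (strL M (s.map Fin.val)) I v} =
            setW M (seg (s.map Fin.val) K) := by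
          ext u
          exact prt_in hnod hK hvK
        rw [e1]
        exact str_mem hG hc hs hk
    · have e1 : ∀ u, prt M (s.map Fin.val) (strL M (s.map Fin.val)) I u = prt M (s.map Fin.val) (strL M (s.map Fin.val)) I v ↔
          u.val ∉ seg (s.map Fin.val) I := fun u => prt_out hF hI2 hI3 hv
      rcases hI with h | h
      · right
        have e2 : {u | prt M (s.map Fin.val) (strL M (s.map Fin.val)) I u = prt M (s.map Fin.val) (strL M (s.map Fin.val)) I v} =
            (setW M (seg (s.map Fin.val) I))ᶜ := by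
          ext u
          exact e1 u
        rw [e2]
        exact (str_mem hG hc hs h).compl
      · left
        intro u hu
        have hu' := (e1 u).1 hu
        have hz' : ∀ w : Fin M.length, w.val ∉ seg (s.map Fin.val) I → w = v₀ := by
          intro w hw
          obtain ⟨i, hi, hi'⟩ := hmem w
          have : i = 0 := by
            by_contra hne
            apply hw
            refine prt_seg.2 ⟨i, ?_, ?_, hi'⟩
            · rw [h]; show 1 ≤ i; omega
            · rw [h]; show i < s.length; omega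
          subst this
          rw [hz] at hi'
          exact Fin.ext (Option.some.inj hi').symm
        rw [hz' u hu', hz' v hv]
  · intro X hX
    by_cases h0 : v₀ ∈ X
    · rcases hcore Xᶜ hX.compl (fun h => h h0) with ⟨v, hv⟩ | ⟨v, hv⟩
      · right
        exact ⟨v, fun x hx => hv x hx⟩
      · left
        exact ⟨v, fun x hx => hv x (fun h => h hx)⟩
    · exact hcore X hX h0

end Pool.Agent.SOT
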