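import Pool.Agent.SOT.Rot

/-! Project SOT, module Red (size 2): one candidate for every key is enough.
-/

set_option autoImplicit false

namespace Pool.Agent.SOT

open Pool.Agent.SOC Pool.Agent.SOD Pool.Agent.SOS

variable {P : Par} {M : Mat} {s0 : Ord} {F : List Ivl}

theorem red_nodup {s0 : Ord} (h : s0.Nodup) (I : Ivl) : (seg s0 I).Nodup := by
  unfold seg
  exact h.sublist ((List.take_sublist _ _).trans (List.drop_sublist _ _))

theorem red_take1 {D : List Ord} {a : Ord} (h : a ∈ D) : ∃ b, b ∈ D.take 1 := by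
  cases D with
  | nil => exact absurd h List.not_mem_nil
  | cons b D => exact ⟨b, by simp⟩

/-- PROOF. S has no repetitions: S ⊆ L and equal lengths: List.Subperm ... (List.subperm_of_subset, List.Subperm.perm_of_length_le). (permB also asks L ⊆ S.) -/
theorem permB_iff {L S : Ord} (hS : S.Nodup) : permB L S = true ↔ L.Perm S := by
  unfold permB
  simp only [Bool.and_eq_true, decide_eq_true_eq, List.all_eq_true]
  constructor
  · rintro ⟨⟨h1, h2⟩, _⟩
    exact ((List.subperm_of_subset hS h2).perm_of_length_le (le_of_eq h1)).symm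
  · intro h
    exact ⟨⟨h.length_eq, fun x hx => h.mem_iff.mpr hx⟩, fun x hx => h.mem_iff.mp hx⟩

/-- PROOF. L.Perm S, VO M (L ++ R). By hC: L₁ ∈ C with VO M (L₁ ++ R); vo_part: L₁.Perm L. h.rep for L₁, R: a key k. L₁ is in the filtered list with good = true, so the list (C.filter ..).filter (good · k) is not empty; its first member L' is in red, good, and a permutation of S (permB_iff), so of L₁: VO M (L' ++ R). -/
theorem red_cmp (h : Hyp P M s0 F) {I : Ivl} (hI : I ∈ F) {C : List Ord}
    (hC : ∀ L R : Ord, L.Perm (seg s0 I) → VO M (L ++ R) → ∃ L' ∈ C, VO M (L' ++ R)) :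
    Cmp M (clo (red P M (C.filter fun L => permB L (seg s0 I)))) (seg s0 I) := by
  have hn : (seg s0 I).Nodup := red_nodup (h.base.nodup_iff.mpr List.nodup_range) I
  intro L R hLp hV
  obtain ⟨L₁, hL₁, hV₁⟩ := hC L R hLp hV
  have hp₁ : L₁.Perm L := vo_part hV hV₁
  have hp₂ : L₁.Perm (seg s0 I) := hp₁.trans hLp
  obtain ⟨k, hk, hg, hall⟩ := h.rep I hI L₁ R hp₂ hV₁
  obtain ⟨L', hL'⟩ := red_take1 (D := (C.filter fun L => permB L (seg s0 I)).filter fun L => P.good M L k) (a := L₁)
    (List.mem_filter.mpr ⟨List.mem_filter.mpr ⟨hL₁, (permB_iff hn).mpr hp₂⟩, hg⟩)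
  have hm := List.mem_of_mem_take hL'
  rw [List.mem_filter, List.mem_filter] at hm
  refine ⟨L', ?_, hall L' (((permB_iff hn).mp hm.1.2).trans hp₂.symm) hm.2⟩
  unfold clo
  refine List.mem_append_left _ ?_
  unfold red
  exact List.mem_flatMap.mpr ⟨k, hk, hL'⟩

/-- PROOF. A member of red is a member of the filtered list (List.mem_of_mem_take), so permB; the reverse of a permutation is a permutation; clo is closed under reversal (List.reverse_reverse). -/
theorem red_perm (hn : s0.Nodup) {I : Ivl} {C : List Ord} {L : Ord}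
    (hL : L ∈ clo (red P M (C.filter fun L => permB L (seg s0 I)))) :
    L.Perm (seg s0 I) ∧ L.reverse ∈ clo (red P M (C.filter fun L => permB L (seg s0 I))) := by
  have hn' : (seg s0 I).Nodup := red_nodup hn I
  have hm : ∀ L, L ∈ red P M (C.filter fun L => permB L (seg s0 I)) → L.Perm (seg s0 I) := by
    intro L hL
    unfold red at hL
    obtain ⟨k, _, hL⟩ := List.mem_flatMap.mp hL
    have h1 := List.mem_of_mem_take hL
    rw [List.mem_filter, List.mem_filter] at h1
    exact (permB_iff hn').mp h1.1.2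
  unfold clo at hL ⊢
  rw [List.mem_append] at hL
  rcases hL with hL | hL
  · exact ⟨hm L hL, List.mem_append_right _ (List.mem_map.mpr ⟨L, hL, rfl⟩)⟩
  · obtain ⟨L₀, hL₀, rfl⟩ := List.mem_map.mp hL
    refine ⟨(List.reverse_perm L₀).trans (hm L₀ hL₀), ?_⟩
    rw [List.reverse_reverse]
    exact List.mem_append_left _ hL₀

end Pool.Agent.SOT
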