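import Pool.Agent.SOT.Rot

/-! Project SOT, module Repl (size 2): replacing the orders of the children by members of complete tables.
-/

set_option autoImplicit false

namespace Pool.Agent.SOT

open Pool.Agent.SOC Pool.Agent.SOD Pool.Agent.SOS

variable {M : Mat} {s0 : Ord}

/-- PROOF. Induction on Ls, Ks (List.Forall₂), for all R. L :: Ls, K :: Ks: VO M (L ++ (Ls.flatten ++ R)); Cmp for K: L' ∈ C K with VO M (L' ++ (Ls.flatten ++ R)). vo_rot: VO M (Ls.flatten ++ (R ++ L')). Induction hypothesis with R ++ L': Ls' with VO M (Ls'.flatten ++ (R ++ L')) = VO M ((Ls'.flatten ++ R) ++ L');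
vo_rot: VO M (L' ++ (Ls'.flatten ++ R)). -/
theorem repl {C : Ivl → List Ord} : ∀ (Ls : List Ord) (Ks : List Ivl), List.Forall₂ (fun L K => L.Perm (seg s0 K)) Ls Ks →
    (∀ K ∈ Ks, Cmp M (C K) (seg s0 K)) → ∀ R : Ord, VO M (Ls.flatten ++ R) →
    ∃ Ls' : List Ord, List.Forall₂ (fun L K => L ∈ C K) Ls' Ks ∧ VO M (Ls'.flatten ++ R) := by
  intro Ls Ks hF
  induction hF with
  | nil =>
    intro _ R hR
    exact ⟨[], List.Forall₂.nil, hR⟩
  | @cons L K Ls Ks hLK hrest ih =>
    intro hC R hR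
    have h1 : VO M (L ++ (Ls.flatten ++ R)) := by
      rw [List.flatten_cons, List.append_assoc] at hR
      exact hR
    obtain ⟨L', hL', h2⟩ := hC K List.mem_cons_self L (Ls.flatten ++ R) hLK h1
    have h3 : VO M (Ls.flatten ++ (R ++ L')) := by
      rw [← List.append_assoc]
      exact vo_rot h2
    obtain ⟨Ls', hF', h4⟩ := ih (fun K hK => hC K (List.mem_cons_of_mem _ hK)) (R ++ L') h3
    refine ⟨L' :: Ls', List.Forall₂.cons hL' hF', ?_⟩
    rw [List.flatten_cons, List.append_assoc]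
    rw [← List.append_assoc] at h4
    exact vo_rot h4

end Pool.Agent.SOT
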