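import Pool.Agent.SOT.Defs

/-! Project SOT, module Rot (size 3): rotation and reversal of SOC orders.
-/

set_option autoImplicit false

namespace Pool.Agent.SOT

open Pool.Agent.SOC Pool.Agent.SOD Pool.Agent.SOS

variable {M : Mat}

/-- PROOF. s.map val = A ++ B: s = s₁ ++ s₂ (List.map_eq_append_iff). The new list is s₂ ++ s₁; IsEnum: isEnum_rot. The same T: qt_congr with Cross (s₁ ++ s₂) a b c d ↔ Cross (s₂ ++ s₁) a b c d for a ≠ c, a ≠ d, b ≠ c, b ≠ d
(cross_iff_sep and ordFn_rot (SOC/Unique): ordFn of the rotated list differs by [x ∈ s₁] + [y ∈ s₁], the sum of the four terms is the same; see the lemmas on rotations in SOE/Gath.lean and gather_ci_rot in SOP/Gather.lean). -/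
theorem vo_rot {A B : Ord} (h : VO M (A ++ B)) : VO M (B ++ A) := by
  obtain ⟨s, h1, hs, T, hT⟩ := h
  obtain ⟨s₁, s₂, rfl, e1, e2⟩ := List.map_eq_append_iff.1 h1
  refine ⟨s₂ ++ s₁, by rw [List.map_append, e1, e2], isEnum_rot hs, T, qt_congr ?_ hT⟩
  intro a b c d _ _ ac ad bc bd
  rw [cross_iff_sep hs ac ad bc bd, cross_iff_sep (isEnum_rot hs) ac ad bc bd,
    Pool.Agent.SOP.sep_rot hs ac ad bc bd]

/-- PROOF. s.reverse (isEnum_reverse, List.map_reverse); for x ≠ y in s: idxOf in the reversed list is bigger iff it is smaller in s (idx_reverse), so Btw and Cross are the same for different points; qt_congr. -/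
theorem vo_rev {l : Ord} (h : VO M l) : VO M l.reverse := by
  obtain ⟨s, rfl, hs, T, hT⟩ := h
  refine ⟨s.reverse, List.map_reverse, isEnum_reverse hs, T, qt_congr ?_ hT⟩
  have key : ∀ x y : Fin M.length, x ≠ y →
      (s.reverse.idxOf x < s.reverse.idxOf y ↔ s.idxOf y < s.idxOf x) := by
    intro x y hxy
    refine ⟨idx_reverse hs.1 (hs.2 x) (hs.2 y), fun h1 => ?_⟩
    by_contra hc
    have hne := idx_ne (isEnum_reverse hs) hxy
    have h2 : s.reverse.idxOf y < s.reverse.idxOf x := by omega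
    have h3 := idx_reverse hs.1 (hs.2 y) (hs.2 x) h2
    omega
  have kb : ∀ a b c : Fin M.length, a ≠ c → b ≠ c →
      (Pool.Agent.SOC.Btw s.reverse a b c ↔ Pool.Agent.SOC.Btw s a b c) := by
    intro a b c ac bc
    unfold Pool.Agent.SOC.Btw
    rw [key a c ac, key c b bc.symm, key b c bc, key c a ac.symm]
    constructor
    · rintro (⟨h1, h2⟩ | ⟨h1, h2⟩)
      · exact Or.inr ⟨h2, h1⟩
      · exact Or.inl ⟨h2, h1⟩
    · rintro (⟨h1, h2⟩ | ⟨h1, h2⟩)
      · exact Or.inr ⟨h2, h1⟩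
      · exact Or.inl ⟨h2, h1⟩
  intro a b c d _ _ ac ad bc bd
  unfold Cross
  rw [kb a b c ac bc, kb a b d ad bd]

/-- PROOF: l = s.map val, Nodup (Fin.val injective), all elements < M.length, all i < M.length occur (List.perm_ext_iff_of_nodup). -/
theorem vo_perm {l : Ord} (h : VO M l) : l.Perm (List.range M.length) := by
  obtain ⟨s, rfl, hs, -⟩ := h
  refine (List.perm_ext_iff_of_nodup (hs.1.map Fin.val_injective) List.nodup_range).2 ?_
  intro x
  rw [List.mem_map, List.mem_range]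
  exact ⟨fun ⟨y, _, hy⟩ => hy ▸ y.2, fun hx => ⟨⟨x, hx⟩, hs.2 _, rfl⟩⟩

/-- PROOF: sor_iff_list. -/
theorem vo_sor : (∃ l, VO M l) ↔ SOR (graphOf M) := by
  rw [sor_iff_list]
  exact ⟨fun ⟨_, s, _, hs, hT⟩ => ⟨s, hs, hT⟩, fun ⟨s, hs, hT⟩ => ⟨_, s, rfl, hs, hT⟩⟩

/-- PROOF: vo_perm for both, List.perm_append_right_iff. -/
theorem vo_part {L L' R : Ord} (h : VO M (L ++ R)) (h' : VO M (L' ++ R)) : L'.Perm L :=
  (List.perm_append_right_iff R).1 ((vo_perm h').trans (vo_perm h).symm)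

end Pool.Agent.SOT
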