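import Pool.Agent.SOT.Defs2

/-! Project SOT, module SegC (size 3): segments and intervals of the cyclic order.
-/

set_option autoImplicit false

open Set

namespace Pool.Agent.SOT

open Pool.Agent.SOC Pool.Agent.SOD Pool.Agent.SOS Pool.Agent.SOP Pool.Agent.SOE

variable {M : Mat} {s : List (Fin M.length)}

theorem segc_seg (s : List (Fin M.length)) (I : Ivl) :
    seg (s.map Fin.val) I = ((s.drop I.1).take (I.2 - I.1)).map Fin.val := by
  unfold seg
  rw [List.map_take, List.map_drop]

theorem segc_mem {x : List (Fin M.length)} {v : Fin M.length} : v ∈ setW M (x.map Fin.val) ↔ v ∈ x := by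
  show v.val ∈ x.map Fin.val ↔ v ∈ x
  rw [List.mem_map]
  constructor
  · rintro ⟨a, ha, he⟩
    rw [← Fin.ext he]
    exact ha
  · intro h
    exact ⟨v, h, rfl⟩

theorem segc_mid {p x q : List (Fin M.length)} (hs : IsEnum (p ++ x ++ q)) :
    CI (p ++ x ++ q) (setW M (x.map Fin.val)) := by
  have key : ∀ z ∈ setW M (x.map Fin.val), ∀ z' ∈ setW M (x.map Fin.val), ∀ y, y ∉ setW M (x.map Fin.val) →
      ordFn (p ++ x ++ q) z y = ordFn (p ++ x ++ q) z' y := by
    intro z hz z' hz' y hy
    rw [segc_mem] at hz hz' hy
    unfold ordFn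
    rcases flip_pos hs.1 (hs.2 z) with ⟨h1, a1, a2, a3⟩ | ⟨h1, a1, a2, a3, a4⟩ | ⟨h1, a1, a2⟩
    · exact absurd hz h1
    · rcases flip_pos hs.1 (hs.2 z') with ⟨h2, b1, b2, b3⟩ | ⟨h2, b1, b2, b3, b4⟩ | ⟨h2, b1, b2⟩
      · exact absurd hz' h2
      · rcases flip_pos hs.1 (hs.2 y) with ⟨h3, c1, c2, c3⟩ | ⟨h3, c1, c2, c3, c4⟩ | ⟨h3, c1, c2⟩
        · rw [a1, b1, c1, if_neg (by omega), if_neg (by omega)]
        · exact absurd h3 hy
        · rw [a1, b1, c1, if_pos (by omega), if_pos (by omega)]
      · exact absurd hz' h2
    · exact absurd hz h1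
  intro z hz z' hz' y hy y' hy'
  unfold sep
  rw [key z hz z' hz' y hy, key z hz z' hz' y' hy']
  have t1 := zadd_self (ordFn (p ++ x ++ q) z' y)
  have t2 := zadd_self (ordFn (p ++ x ++ q) z' y')
  linear_combination t1 + t2

/-- PROOF. Members of the segment: v.val = (s.map val)[t] with I.1 ≤ t < I.2, so idxOf v ∈ [I.1, I.2). For a set of the form {v | i ≤ idxOf v < j}: sep (ordFn s) x x' y y' = 0 for x, x' inside and y, y' outside: ordFn s x y = ordFn s x' y (y is before or behind all of them). -/
theorem seg_ci (hs : IsEnum s) (I : Ivl) : CI s (setW M (seg (s.map Fin.val) I)) := by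
  have e : s = s.take I.1 ++ (s.drop I.1).take (I.2 - I.1) ++ (s.drop I.1).drop (I.2 - I.1) := by
    rw [List.append_assoc, List.take_append_drop, List.take_append_drop]
  rw [segc_seg]
  have h1 : IsEnum (s.take I.1 ++ (s.drop I.1).take (I.2 - I.1) ++ (s.drop I.1).drop (I.2 - I.1)) := by
    rw [← e]; exact hs
  have h2 := segc_mid h1
  rw [← e] at h2
  exact h2

/-- PROOF. v₀ the head, not in X. For x, x' ∈ X and y, v₀ ∉ X: sep x x' y v₀ = 0 gives ordFn x y = ordFn x' y (ordFn x v₀ = 0 for all x). So no y ∉ X is between two members of X: the positions of the members of X form an interval [i, j) (X empty: I = (1, 1)). i ≥ 1 since v₀ ∉ X. -/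
theorem ci_seg (hs : IsEnum s) {v₀ : Fin M.length} {t : List (Fin M.length)} (e : s = v₀ :: t) {X : Set (Fin M.length)} (hX : CI s X)
    (h0 : v₀ ∉ X) : ∃ I : Ivl, 1 ≤ I.1 ∧ I.1 ≤ I.2 ∧ I.2 ≤ s.length ∧ X = setW M (seg (s.map Fin.val) I) := by
  subst e
  obtain ⟨p, x, q, h1, h2, h3, h4⟩ := flip_split_head hs hX h0
  have hmem : ∀ v, v ∈ X ↔ v ∈ x := by
    intro v
    constructor
    · intro hv
      have h5 : v ∈ p ++ x ++ q := by rw [← h1]; exact hs.2 v
      rcases List.mem_append.1 h5 with h6 | h6
      · rcases List.mem_append.1 h6 with h7 | h7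
        · exact absurd hv (h3 v h7)
        · exact h7
      · exact absurd hv (h4 v h6)
    · exact h2 v
  rcases List.eq_nil_or_concat x with hx | ⟨x', a, hx⟩
  · refine ⟨(1, 1), le_rfl, le_rfl, by simp, ?_⟩
    ext v
    rw [hmem, segc_seg, segc_mem, hx]
    simp
  · have hx0 : x ≠ [] := by rw [hx]; simp
    have hp0 : p ≠ [] := by
      intro hp
      rw [hp, List.nil_append] at h1
      cases x with
      | nil => exact hx0 rfl
      | cons b x'' =>
        rw [List.cons_append] at h1
        injection h1 with h5 h6
        exact h0 (h5 ▸ h2 b List.mem_cons_self)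
    refine ⟨(p.length, p.length + x.length), List.length_pos_iff.2 hp0, Nat.le_add_right _ _, ?_, ?_⟩
    · rw [h1, List.length_append, List.length_append]
      exact Nat.le_add_right _ _
    · ext v
      rw [hmem, segc_seg, segc_mem, h1]
      simp [List.append_assoc]

/-- PROOF. s = [] or s = v₀ :: t. If v₀ ∉ setW M S: ci_seg: setW M S = setW M (seg l I), with l = s.map val; u := l.take I.1, v := seg l I, w := l.drop I.2; v is a permutation of S (both without repetitions, the same members: List.perm_ext_iff_of_nodup). If v₀ ∈ setW M S: the complement is CI (IsSplit.compl), the same decomposition for the complement,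
and w ++ u has the members of S. -/
theorem ci_cyc (hs : IsEnum s) {S : Ord} (hS : S.Nodup) (hb : ∀ x ∈ S, x < M.length) (h : CI s (setW M S)) :
    Cyc (s.map Fin.val) S := by
  have hperm : ∀ l : List (Fin M.length), l.Nodup → (∀ v, v ∈ l ↔ v ∈ setW M S) → (l.map Fin.val).Perm S := by
    intro l hl hm
    rw [List.perm_ext_iff_of_nodup (hl.map Fin.val_injective) hS]
    intro n
    rw [List.mem_map]
    constructor
    · rintro ⟨v, hv, rfl⟩
      exact (hm v).1 hv
    · intro hn
      exact ⟨⟨n, hb n hn⟩, (hm _).2 hn, rfl⟩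
  cases s with
  | nil =>
    refine ⟨[], [], [], rfl, Or.inl ?_⟩
    have h1 := hperm [] List.nodup_nil (fun v => absurd (hs.2 v) List.not_mem_nil)
    exact h1
  | cons v₀ t =>
    by_cases h0 : v₀ ∈ setW M S
    · have hc : CI (v₀ :: t) (setW M S)ᶜ := IsSplit.compl (ordFn_skew hs) h
      obtain ⟨p, x, q, h1, h2, h3, h4⟩ := flip_split_head hs hc (fun h5 => h5 h0)
      refine ⟨p.map Fin.val, x.map Fin.val, q.map Fin.val, ?_, Or.inr ?_⟩
      · rw [h1]; simp [List.append_assoc]
      · rw [← List.map_append]
        have hn : (p ++ x ++ q).Nodup := by rw [← h1]; exact hs.1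
        apply hperm
        · rw [List.append_assoc, List.nodup_append] at hn
          obtain ⟨n1, n2, n3⟩ := hn
          rw [List.nodup_append] at n2
          rw [List.nodup_append]
          refine ⟨n2.2.1, n1, fun a ha b hb e => ?_⟩
          exact n3 b hb a (List.mem_append.2 (Or.inr ha)) e.symm
        · intro v
          have h5 : v ∈ p ++ x ++ q := by rw [← h1]; exact hs.2 v
          constructor
          · intro hv
            rcases List.mem_append.1 hv with h6 | h6
            · exact not_not.1 (h4 v h6)
            · exact not_not.1 (h3 v h6)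
          · intro hv
            rcases List.mem_append.1 h5 with h6 | h6
            · rcases List.mem_append.1 h6 with h7 | h7
              · exact List.mem_append.2 (Or.inr h7)
              · exact absurd hv (h2 v h7)
            · exact List.mem_append.2 (Or.inl h6)
    · obtain ⟨p, x, q, h1, h2, h3, h4⟩ := flip_split_head hs h h0
      refine ⟨p.map Fin.val, x.map Fin.val, q.map Fin.val, ?_, Or.inl ?_⟩
      · rw [h1]; simp [List.append_assoc]
      · have hn : (p ++ x ++ q).Nodup := by rw [← h1]; exact hs.1
        apply hperm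
        · exact (List.nodup_append.1 (List.nodup_append.1 hn).1).2.1
        · intro v
          have h5 : v ∈ p ++ x ++ q := by rw [← h1]; exact hs.2 v
          constructor
          · exact h2 v
          · intro hv
            rcases List.mem_append.1 h5 with h6 | h6
            · rcases List.mem_append.1 h6 with h7 | h7
              · exact absurd hv (h3 v h7)
              · exact h7
            · exact absurd hv (h4 v h6)

end Pool.Agent.SOT
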