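import Pool.Agent.SOT.Defs

/-! Project SOT, module Small (size 3): at most five children: all arrangements.
-/

set_option autoImplicit false

namespace Pool.Agent.SOT

open Pool.Agent.SOC Pool.Agent.SOD Pool.Agent.SOS

theorem small_app {α β : Type} {R : α → β → Prop} {a c : List α} {b d : List β} (h : List.Forall₂ R a b)
    (h' : List.Forall₂ R c d) : List.Forall₂ R (a ++ c) (b ++ d) := by
  induction h with
  | nil => exact h'
  | cons h1 _ ih => exact List.Forall₂.cons h1 ih

theorem small_ext (Cs : List (List Ord)) : ∀ (k m : ℕ), Cs.length ≤ m →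
    List.Forall₂ (fun (L : Ord) (t : ℕ) => L ∈ Cs.getD t [[]]) (List.replicate k []) (List.range' m k) := by
  intro k
  induction k with
  | zero => intro m _; exact List.Forall₂.nil
  | succ k ih =>
    intro m hm
    rw [List.replicate_succ, List.range'_succ]
    refine List.Forall₂.cons ?_ (ih (m + 1) (by omega))
    rw [List.getD_eq_default _ _ hm]
    exact List.mem_singleton.mpr rfl

theorem small_five {Cs : List (List Ord)} {p : List ℕ} (hp : p.Perm [0, 1, 2, 3, 4]) {Ls : List Ord}
    (h : List.Forall₂ (fun (L : Ord) (t : ℕ) => L ∈ Cs.getD t [[]]) Ls p) : Ls.flatten ∈ small Cs := by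
  have hlen : p.length = 5 := by rw [hp.length_eq]; rfl
  match p, hlen with
  | [p0, p1, p2, p3, p4], _ =>
    cases h with
    | cons h0 h =>
      cases h with
      | cons h1 h =>
        cases h with
        | cons h2 h =>
          cases h with
          | cons h3 h =>
            cases h with
            | cons h4 h =>
              cases h with
              | nil =>
                unfold small
                rw [List.mem_flatMap]
                refine ⟨[p0, p1, p2, p3, p4], List.mem_permutations.mpr hp, ?_⟩
                unfold comb5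
                refine List.mem_flatMap.mpr ⟨_, h0, ?_⟩
                refine List.mem_flatMap.mpr ⟨_, h1, ?_⟩
                refine List.mem_flatMap.mpr ⟨_, h2, ?_⟩
                refine List.mem_flatMap.mpr ⟨_, h3, ?_⟩
                refine List.mem_map.mpr ⟨_, h4, ?_⟩
                simp

theorem small_get (C : Ivl → List Ord) (K₀ : List Ivl) :
    List.Forall₂ (fun (K : Ivl) (t : ℕ) => C K = (K₀.map C).getD t [[]]) K₀ (List.range K₀.length) := by
  rw [List.forall₂_iff_get]
  refine ⟨by simp, ?_⟩
  intro i h1 h2
  simp only [List.get_eq_getElem, List.getElem_range]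
  rw [List.getD_eq_getElem _ _ (by simpa using h1)]
  simp

theorem small_comp {C : Ivl → List Ord} {Cs : List (List Ord)} {Ls : List Ord} {Ks : List Ivl}
    (hL : List.Forall₂ (fun L K => L ∈ C K) Ls Ks) : ∀ {q : List ℕ},
    List.Forall₂ (fun (K : Ivl) (t : ℕ) => C K = Cs.getD t [[]]) Ks q →
    List.Forall₂ (fun (L : Ord) (t : ℕ) => L ∈ Cs.getD t [[]]) Ls q := by
  induction hL with
  | nil =>
    intro q h
    cases h with
    | nil => exact List.Forall₂.nil
  | cons h1 _ ih =>
    intro q h
    cases h with
    | cons h2 h3 =>
      refine List.Forall₂.cons ?_ (ih h3)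
      rw [← h2]
      exact h1

/-- PROOF. Let m := K₀.length ≤ 5. There is a permutation q of List.range m with Ks = q.map (fun t => K₀.getD t (0, 0)) (induction on Perm, or: Ks = (indices in K₀)...; e.g. from List.Perm: (List.range m).map (K₀.getD · _) = K₀, and a permutation of a map is the map of a permutation). p := q ++ [m, ..., 4] is a permutation of [0, 1, 2, 3, 4] (the cases m = 0, ..., 5;
List.range 5 = List.range m ++ ...). For i < m: (K₀.map C).getD (p_i) [[]] = C (Ks_i) contains L_i; for i ≥ m: p_i ≥ m, getD gives [[]], which contains []. So the concatenation L₀ ++ ... ++ L_{m-1} ++ [] ++ ... is in comb5 .. (List.mem_flatMap, List.mem_map). Do the six cases m = 0, ..., 5 separately if this is easier: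
then Ls = [L₀, ..., L_{m-1}], q = [q₀, ..., q_{m-1}]. -/
theorem small_mem {C : Ivl → List Ord} {K₀ Ks : List Ivl} (h5 : K₀.length ≤ 5) (hp : Ks.Perm K₀) {Ls : List Ord}
    (hL : List.Forall₂ (fun L K => L ∈ C K) Ls Ks) : Ls.flatten ∈ small (K₀.map C) := by
  obtain ⟨q, hq1, hq2⟩ := List.perm_comp_forall₂ hp (small_get C K₀)
  have h1 := small_comp hL hq1
  have h2 := small_ext (K₀.map C) (5 - K₀.length) K₀.length (by simp)
  have h3 := small_five ?_ (small_app h1 h2)
  · simpa using h3
  · refine (List.Perm.append_right _ hq2).trans ?_
    have : List.range K₀.length ++ List.range' K₀.length (5 - K₀.length) = [0, 1, 2, 3, 4] := by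
      generalize K₀.length = m at h5
      interval_cases m <;> rfl
    rw [this]

end Pool.Agent.SOT
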