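import Pool.Agent.SOT.ArrV
import Pool.Agent.SOT.Repl
import Pool.Agent.SOT.Small
import Pool.Agent.SOT.Red

/-! Project SOT, module StepT (size 3): one step of the dynamic program.
-/

set_option autoImplicit false

namespace Pool.Agent.SOT

open Pool.Agent.SOC Pool.Agent.SOD Pool.Agent.SOS

variable {P : Par} {M : Mat} {s0 : Ord} {F : List Ivl}

/-- all entries of the tables are orders of the right sets, and the tables are closed under reversal -/
def OkT (s0 : Ord) (F : List Ivl) (acc : Tab) : Prop :=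
  ∀ I ∈ F, ∀ L ∈ look s0 acc I, L.Perm (seg s0 I) ∧ L.reverse ∈ look s0 acc I

theorem stepT_nod (h : Hyp P M s0 F) {I : Ivl} (hI : Nod s0.length F I) : I.1 < I.2 ∧ I.2 ≤ s0.length := by
  rcases hI with hI | hI
  · have h1 := h.fam.len I hI
    exact ⟨by omega, h.fam.hi I hI⟩
  · have h1 := h.base.length_eq
    rw [List.length_range] at h1
    have h2 := h.four
    subst hI
    constructor
    · show 1 < s0.length
      omega
    · exact le_rfl

theorem stepT_seg {s0 : Ord} {K : Ivl} (h : K.2 = K.1 + 1) : seg s0 K = [] ∨ ∃ x, seg s0 K = [x] := by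
  have h1 : (seg s0 K).length ≤ 1 := by
    unfold seg
    rw [List.length_take, h]
    omega
  cases h2 : seg s0 K with
  | nil => exact Or.inl rfl
  | cons x t =>
    rw [h2, List.length_cons] at h1
    right
    refine ⟨x, ?_⟩
    have : t = [] := List.length_eq_zero_iff.1 (by omega)
    rw [this]

theorem stepT_perm {s0 : Ord} {K : Ivl} (h : K.2 = K.1 + 1) {L : Ord} (hL : L.Perm (seg s0 K)) : L = seg s0 K := by
  rcases stepT_seg (s0 := s0) h with e | ⟨x, e⟩
  · rw [e] at hL ⊢
    exact hL.eq_nil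
  · rw [e] at hL ⊢
    exact List.perm_singleton.1 hL

theorem stepT_rev {s0 : Ord} {K : Ivl} (h : K.2 = K.1 + 1) : (seg s0 K).reverse = seg s0 K :=
  stepT_perm h (List.reverse_perm _)

theorem stepT_look {s0 : Ord} {acc : Tab} {K : Ivl} (h : K.2 = K.1 + 1) : look s0 acc K = [seg s0 K] := by
  unfold look
  exact if_pos h

/-- PROOF. K.2 = K.1 + 1: look is [seg s0 K], seg s0 K has at most one element. Otherwise K ∈ F (kids_mem): OkT. -/
theorem look_kid (h : Hyp P M s0 F) {acc : Tab} (ha : OkT s0 F acc) {I : Ivl} (hI : Nod s0.length F I) {K : Ivl} (hK : K ∈ kids s0.length F I) :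
    ∀ L ∈ look s0 acc K, L.Perm (seg s0 K) ∧ L.reverse ∈ look s0 acc K := by
  intro L hL
  obtain ⟨n1, n2⟩ := stepT_nod h hI
  rcases (kids_mem h.fam n1 n2 hK).1 with h1 | ⟨h1, _⟩
  · rw [stepT_look h1, List.mem_singleton] at hL
    rw [stepT_look h1, hL, stepT_rev h1]
    exact ⟨List.Perm.refl _, List.mem_singleton.2 rfl⟩
  · exact ha K h1 L hL

/-- PROOF. arr_vo: Ks, Ls. Every kid has a complete table: K.2 = K.1 + 1: look = [seg s0 K], and L.Perm (seg s0 K) for a list with at most one element is L = seg s0 K; otherwise K ∈ F and hc. repl: Ls' with entries in look s0 acc K. If (kids F I).length ≤ 5: small_mem with C := look s0 acc. Otherwise h.rig with C := look s0 acc (look_kid). -/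
theorem cands_cmp (h : Hyp P M s0 F) {acc : Tab} (ha : OkT s0 F acc) {I : Ivl} (hI : Nod s0.length F I)
    (hc : ∀ K ∈ kids s0.length F I, K ∈ F → Cmp M (look s0 acc K) (seg s0 K)) :
    ∀ L R : Ord, L.Perm (seg s0 I) → VO M (L ++ R) → ∃ L' ∈ cands P M s0 F acc I, VO M (L' ++ R) := by
  intro L R hL hV
  obtain ⟨n1, n2⟩ := stepT_nod h hI
  obtain ⟨Ks, hKs, Ls, hLs, rfl⟩ := arr_vo h hI hL hV
  obtain ⟨Ls', hLs', hV'⟩ := repl (C := look s0 acc) Ls Ks hLs (by
    intro K hK
    have hK' := hKs.mem_iff.1 hK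
    rcases (kids_mem h.fam n1 n2 hK').1 with h1 | ⟨h1, _⟩
    · intro L' R' hL' hVL'
      rw [stepT_look h1]
      exact ⟨L', List.mem_singleton.2 (stepT_perm h1 hL'), hVL'⟩
    · exact hc K hK' h1) R hV
  unfold cands
  by_cases h5 : (kids s0.length F I).length ≤ 5
  · rw [if_pos h5]
    exact ⟨Ls'.flatten, small_mem h5 hKs hLs', hV'⟩
  · rw [if_neg h5]
    exact h.rig I hI (by omega) (look s0 acc) (fun K hK => look_kid h ha hI hK) Ks hKs Ls' hLs' R hV'

/-- PROOF. I.2 ≠ I.1 + 1 (len); the filter of F.map (fun I => (I, node ..)) by p.1 = I consists of copies of (I, node .. I), at least one (I ∈ F); so membership in the flatMap is membership in node .. I. -/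
theorem look_rnd (hF : Lam s0.length F) {acc : Tab} {I : Ivl} (hI : I ∈ F) {L : Ord} :
    L ∈ look s0 (rnd P M s0 F acc) I ↔ L ∈ node P M s0 F acc I := by
  have h1 := hF.len I hI
  unfold look
  rw [if_neg (by omega)]
  constructor
  · intro h
    obtain ⟨p, hp, hLp⟩ := List.mem_flatMap.1 h
    obtain ⟨hp1, hp2⟩ := List.mem_filter.1 hp
    unfold rnd at hp1
    obtain ⟨J, _, rfl⟩ := List.mem_map.1 hp1
    have e : J = I := of_decide_eq_true hp2
    rw [← e]
    exact hLp
  · intro h
    refine List.mem_flatMap.2 ⟨(I, node P M s0 F acc I), List.mem_filter.2 ⟨?_, decide_eq_true rfl⟩, h⟩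
    unfold rnd
    exact List.mem_map.2 ⟨I, hI, rfl⟩

end Pool.Agent.SOT
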