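import Pool.Agent.SOT.Epc
import Pool.Agent.SOT.SegC

/-! Project SOT, module StrT (size 3): the family strL consists of the strong E-P-cuts.
-/

set_option autoImplicit false

open Set

namespace Pool.Agent.SOT

open Pool.Agent.SOC Pool.Agent.SOD Pool.Agent.SOS Pool.Agent.SOP Pool.Agent.SOE

variable {M : Mat} {s : List (Fin M.length)}

theorem strt_at (hs : IsEnum s) {k : ℕ} (hk : k < s.length) : ∃ v, s.idxOf v = k := ⟨s[k], hs.1.idxOf_getElem k hk⟩

theorem strt_lt (hs : IsEnum s) (v : Fin M.length) : s.idxOf v < s.length := List.idxOf_lt_length_iff.2 (hs.2 v)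

theorem strt_ne {a b : Fin M.length} (h : s.idxOf a ≠ s.idxOf b) : a ≠ b := fun e => h (by rw [e])

theorem strt_inj (hs : IsEnum s) {a b : Fin M.length} (h : a ≠ b) : s.idxOf a ≠ s.idxOf b := fun e =>
  h ((List.idxOf_inj (hs.2 a)).1 e)

/-- the members of a segment -/
theorem strt_seg (hs : IsEnum s) (I : Ivl) (v : Fin M.length) :
    v ∈ setW M (seg (s.map Fin.val) I) ↔ I.1 ≤ s.idxOf v ∧ s.idxOf v < I.2 := by
  have e : seg (s.map Fin.val) I = ((s.drop I.1).take (I.2 - I.1)).map Fin.val := by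
    unfold seg
    rw [← List.map_drop, ← List.map_take]
  have h0 : v ∈ setW M (seg (s.map Fin.val) I) ↔ v ∈ (s.drop I.1).take (I.2 - I.1) := by
    unfold setW
    rw [Set.mem_ofPred_eq, e, List.mem_map]
    constructor
    · rintro ⟨u, hu, huv⟩
      rwa [← Fin.ext huv]
    · intro h
      exact ⟨v, h, rfl⟩
  rw [h0]
  have hl := strt_lt hs v
  constructor
  · intro h
    obtain ⟨t, ht, hv⟩ := List.mem_iff_getElem.1 h
    have ht' := ht
    rw [List.length_take, List.length_drop] at ht'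
    rw [List.getElem_take, List.getElem_drop] at hv
    have h1 : s.idxOf v = I.1 + t := by
      rw [← hv]
      exact hs.1.idxOf_getElem _ _
    omega
  · rintro ⟨h1, h2⟩
    rw [List.mem_iff_getElem]
    refine ⟨s.idxOf v - I.1, ?_, ?_⟩
    · rw [List.length_take, List.length_drop]
      omega
    · rw [List.getElem_take, List.getElem_drop]
      have h3 : I.1 + (s.idxOf v - I.1) = s.idxOf v := by omega
      simp only [h3]
      exact List.getElem_idxOf hl

theorem strt_ovl {I J : Ivl} : ovl I J = true ↔ (I.1 < J.1 ∧ J.1 < I.2 ∧ I.2 < J.2) ∨ (J.1 < I.1 ∧ I.1 < J.2 ∧ J.2 < I.2) := by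
  unfold ovl
  simp only [Bool.or_eq_true, Bool.and_eq_true, decide_eq_true_eq, and_assoc]

theorem strt_mem {s0 : Ord} {I : Ivl} : I ∈ strL M s0 ↔ I ∈ epcL M s0 ∧ ∀ J ∈ epcL M s0, ovl I J = false := by
  unfold strL
  rw [List.mem_filter, List.all_eq_true]
  simp only [Bool.not_eq_true']

theorem mem_epcL {s0 : Ord} {I : Ivl} : I ∈ epcL M s0 ↔ 1 ≤ I.1 ∧ I.1 + 2 ≤ I.2 ∧ I.2 ≤ s0.length ∧ I.2 + 2 ≤ s0.length + I.1 ∧
    epcB M (seg s0 I) = true := by
  unfold epcL
  simp only [List.mem_flatMap, List.mem_range, List.mem_filter, List.mem_map, Bool.and_eq_true, decide_eq_true_eq]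
  constructor
  · rintro ⟨i, hi, ⟨j, hj, rfl⟩, ⟨⟨h1, h2⟩, h3⟩, h4⟩
    exact ⟨h1, h2, by omega, h3, h4⟩
  · rintro ⟨h1, h2, h3, h4, h5⟩
    exact ⟨I.1, by omega, ⟨I.2, by omega, rfl⟩, ⟨⟨h1, h2⟩, h4⟩, h5⟩

/-- PROOF: mem_epcL; the filter condition of strL for J ∈ strL ⊆ epcL. -/
theorem strL_lam (s0 : Ord) : Lam s0.length (strL M s0) := by
  refine ⟨fun I hI => ?_, fun I hI => ?_, fun I hI => ?_, fun I hI J hJ => ?_⟩
  · exact (mem_epcL.1 (strt_mem.1 hI).1).1
  · exact (mem_epcL.1 (strt_mem.1 hI).1).2.1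
  · exact (mem_epcL.1 (strt_mem.1 hI).1).2.2.1
  · exact (strt_mem.1 hI).2 J (strt_mem.1 hJ).1

/-- PROOF. stre_iff: EPC: epcB_iff. Nontriv: I.1 + 2 ≤ I.2 and the complement has at least two positions. CI: seg_ci. Let Y be an EPC, CI s Y, Crossing X Y; replace Y by its complement if the head of s is in Y (EPC.compl, IsSplit.compl, crossing_compl): Y = setW (seg J) (ci_seg). Crossing: Y has at least two elements and so has its complement, so J ∈ epcL
(J.1 + 2 ≤ J.2 because Y has two elements; J.2 + 2 ≤ n + J.1), so ovl I J = false, but crossing segments of 1, ..., n - 1 overlap (positions; idxOf). -/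
theorem str_mem (hG : PrimeG (graphOf M)) (hc : CFree (graphOf M)) (hs : EWO (graphOf M) s) {I : Ivl}
    (hI : I ∈ strL M (s.map Fin.val)) : StrE (graphOf M) (setW M (seg (s.map Fin.val) I)) := by
  have hE := hs.enum
  have hIe := strt_mem.1 hI
  have hIm := mem_epcL.1 hIe.1
  rw [List.length_map] at hIm
  obtain ⟨h1, h2, h3, h4, h5⟩ := hIm
  have key : ∀ Y, EPC (graphOf M) Y → CI s Y → ∀ v₀ : Fin M.length, s.idxOf v₀ = 0 → v₀ ∉ Y →
      ¬ Crossing (setW M (seg (s.map Fin.val) I)) Y := by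
    intro Y hY hcY v₀ hv₀ hn
    obtain ⟨t, ht⟩ : ∃ t, s = v₀ :: t := by
      cases hcs : s with
      | nil => rw [hcs] at h3; simp at h3; omega
      | cons a t =>
        refine ⟨t, ?_⟩
        have h6 : s.idxOf a = 0 := by rw [hcs]; simp
        have h7 : v₀ = a := by
          by_contra hne
          exact strt_inj hE hne (by rw [hv₀, h6])
        rw [h7]
    obtain ⟨J, hJ1, hJ2, hJ3, rfl⟩ := ci_seg hE ht hcY hn
    rintro ⟨⟨p, hp1, hp2⟩, ⟨q, hq1, hq2⟩, ⟨r, hr1, hr2⟩, -⟩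
    rw [strt_seg hE] at hp1 hp2 hq1 hq2 hr1 hr2
    have hq3 := strt_lt hE q
    have hJ : J ∈ epcL M (s.map Fin.val) := by
      rw [mem_epcL, List.length_map]
      exact ⟨hJ1, by omega, hJ3, by omega, epcB_iff.2 hY⟩
    have h6 := hIe.2 J hJ
    have h7 : ¬ (ovl I J = true) := by rw [h6]; exact Bool.false_ne_true
    rw [strt_ovl] at h7
    omega
  rw [stre_iff hG hc hs]
  refine ⟨epcB_iff.1 h5, ?_, seg_ci hE I, ?_⟩
  · obtain ⟨a, ha⟩ := strt_at hE (k := I.1) (by omega)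
    obtain ⟨b, hb⟩ := strt_at hE (k := I.1 + 1) (by omega)
    obtain ⟨c, hc⟩ := strt_at hE (k := 0) (by omega)
    obtain ⟨d, hd1, hd2⟩ : ∃ d : Fin M.length, s.idxOf d ≠ 0 ∧ ¬ (I.1 ≤ s.idxOf d ∧ s.idxOf d < I.2) := by
      by_cases h6 : 2 ≤ I.1
      · obtain ⟨d, hd⟩ := strt_at hE (k := 1) (by omega)
        exact ⟨d, by omega, by omega⟩
      · obtain ⟨d, hd⟩ := strt_at hE (k := I.2) (by omega)
        exact ⟨d, by omega, by omega⟩
    refine ⟨⟨a, (strt_seg hE I a).2 (by omega), b, (strt_seg hE I b).2 (by omega), strt_ne (s := s) (by omega)⟩, c, ?_, d, ?_,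
      strt_ne (s := s) (by omega)⟩
    · rw [strt_seg hE]
      omega
    · rw [strt_seg hE]
      exact hd2
  · intro Y hY hcY
    obtain ⟨v₀, hv₀⟩ := strt_at hE (k := 0) (by omega)
    by_cases hn : v₀ ∈ Y
    · have h6 := key Yᶜ hY.compl (IsSplit.compl (ordFn_skew hE) hcY) v₀ hv₀ (fun h => h hn)
      rwa [crossing_compl] at h6
    · exact key Y hY hcY v₀ hv₀ hn

/-- PROOF. stre_ci, ci_seg: X = setW (seg I). Nontriv gives the inequalities. I ∈ epcL by epcB_iff. For J ∈ epcL: ovl I J = true would give a crossing EPC (positions: I.1 < J.1 < I.2 < J.2 or J.1 < I.1 < J.2 < I.2; the head is outside of both), contradiction to hX.st. -/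
theorem str_ex (hG : PrimeG (graphOf M)) (hc : CFree (graphOf M)) (hs : EWO (graphOf M) s) {v₀ : Fin M.length}
    {t : List (Fin M.length)} (e : s = v₀ :: t) {X : Set (Fin M.length)} (hX : StrE (graphOf M) X) (h0 : v₀ ∉ X) :
    ∃ I ∈ strL M (s.map Fin.val), X = setW M (seg (s.map Fin.val) I) := by
  have hE := hs.enum
  obtain ⟨I, h1, h2, h3, hXI⟩ := ci_seg hE e (stre_ci hG hc hs hX) h0
  have hm : ∀ v, v ∈ X ↔ I.1 ≤ s.idxOf v ∧ s.idxOf v < I.2 := by
    intro v
    rw [hXI]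
    exact strt_seg hE I v
  have hv₀ : s.idxOf v₀ = 0 := by rw [e]; simp
  obtain ⟨⟨x, hx, x', hx', hne⟩, y, hy, y', hy', hne'⟩ := hX.nt
  have i1 := strt_inj hE hne
  have i2 := strt_inj hE hne'
  rw [hm] at hx hx' hy hy'
  have l1 := strt_lt hE y
  have l2 := strt_lt hE y'
  have hIe : I ∈ epcL M (s.map Fin.val) := by
    rw [mem_epcL, List.length_map]
    refine ⟨h1, by omega, h3, by omega, epcB_iff.2 ?_⟩
    rw [← hXI]
    exact hX.epc
  refine ⟨I, strt_mem.2 ⟨hIe, ?_⟩, hXI⟩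
  intro J hJ
  have hJm := mem_epcL.1 hJ
  rw [List.length_map] at hJm
  obtain ⟨j1, j2, j3, j4, j5⟩ := hJm
  by_contra hcon
  have hov : ovl I J = true := by
    cases hb : ovl I J with
    | true => rfl
    | false => exact absurd hb hcon
  rw [strt_ovl] at hov
  have hst := hX.st _ (epcB_iff.1 j5)
  apply hst
  have t0 : v₀ ∉ setW M (seg (s.map Fin.val) J) := by
    rw [strt_seg hE]
    omega
  rcases hov with ⟨o1, o2, o3⟩ | ⟨o1, o2, o3⟩
  · obtain ⟨p, hp⟩ := strt_at hE (k := J.1) (by omega)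
    obtain ⟨q, hq⟩ := strt_at hE (k := I.1) (by omega)
    obtain ⟨r, hr⟩ := strt_at hE (k := I.2) (by omega)
    refine ⟨⟨p, (hm p).2 (by omega), (strt_seg hE J p).2 (by omega)⟩, ⟨q, (hm q).2 (by omega), ?_⟩,
      ⟨r, ?_, (strt_seg hE J r).2 (by omega)⟩, ⟨v₀, h0, t0⟩⟩
    · rw [strt_seg hE]
      omega
    · rw [hm]
      omega
  · obtain ⟨p, hp⟩ := strt_at hE (k := I.1) (by omega)
    obtain ⟨q, hq⟩ := strt_at hE (k := J.2) (by omega)
    obtain ⟨r, hr⟩ := strt_at hE (k := J.1) (by omega)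
    refine ⟨⟨p, (hm p).2 (by omega), (strt_seg hE J p).2 (by omega)⟩, ⟨q, (hm q).2 (by omega), ?_⟩,
      ⟨r, ?_, (strt_seg hE J r).2 (by omega)⟩, ⟨v₀, h0, t0⟩⟩
    · rw [strt_seg hE]
      omega
    · rw [hm]
      omega

end Pool.Agent.SOT
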